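import Mathlib
import Pool.Agent.Helper591.Kneser

/-!
# Exact order of additive bases: definitions

`stab`, `els`, `sm` (iterated sumset) and the weak Kneser theorem come from
`Pool.Agent.Helper591.Kneser`.
-/

open Finset
open scoped Pointwise

namespace Pool.Agent.H500R2.EO

open Pool.Agent.Helper591.Kneser

/-- sums of exactly `j` elements of `A` (repetitions allowed) -/
def nsum (A : Set ℕ) (j : ℕ) : Set ℕ :=
  {n | ∃ v : Fin j → ℕ, (∀ i, v i ∈ A) ∧ ∑ i, v i = n}

/-- `A` is a basis of order `r`: all large integers are sums of exactly `j` elements of `A`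
for some `j ≤ r`. -/
def IsBasisOfOrder (r : ℕ) (A : Set ℕ) : Prop :=
  ∃ N : ℕ, ∀ n ≥ N, ∃ j ≤ r, n ∈ nsum A j

/-- `A` has exact order `k`: `k` is the least integer such that all large integers are sums of
exactly `k` elements of `A`. -/
def HasExactOrder (A : Set ℕ) (k : ℕ) : Prop :=
  IsLeast {k : ℕ | ∃ N : ℕ, ∀ n ≥ N, n ∈ nsum A k} k

/-- the exact orders of the bases of order `r` -/
def exactOrders (r : ℕ) : Set ℕ :=
  {k | ∃ A : Set ℕ, IsBasisOfOrder r A ∧ HasExactOrder A k}

/-- the function `h(r)` of Erdos and Graham -/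
noncomputable def h (r : ℕ) : ℕ := sSup (exactOrders r)

section Finite

variable {G : Type*} [AddCommGroup G]

/-- the subgroup of `G × ℤ` generated by the pairs `(b, f b)`, `b ∈ B` -/
def Hs (B : Finset G) (f : G → ℤ) : AddSubgroup (G × ℤ) :=
  AddSubgroup.closure ((fun b => (b, f b)) '' (B : Set G))

end Finite

end Pool.Agent.H500R2.EO
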