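import Mathlib
import Pool.Agent.H500R2.EO.Defs

/-!
# Growth of iterated sumsets (monotonicity, images, superadditivity)
-/

open Finset
open scoped Pointwise

namespace Pool.Agent.H500R2.EO

open Pool.Agent.Helper591.Kneser

section Finite

variable {G : Type} [AddCommGroup G] [Fintype G] [DecidableEq G]

theorem sm_mono {B : Finset G} (h0 : (0 : G) ∈ B) {i j : ℕ} (h : i ≤ j) : sm i B ⊆ sm j B := by
  induction j, h using Nat.le_induction with
  | base => exact Finset.Subset.refl _
  | succ n hn ih =>
    refine ih.trans ?_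
    intro x hx
    rw [sm_succ, Finset.mem_add]
    exact ⟨x, hx, 0, h0, add_zero x⟩

theorem sm_image {G' : Type} [AddCommGroup G'] [Fintype G'] [DecidableEq G'] (π : G →+ G')
    (B : Finset G) (j : ℕ) : (sm j B).image π = sm j (B.image π) := by
  induction j with
  | zero => rw [sm_zero, sm_zero, Finset.image_singleton, map_zero]
  | succ j ih => rw [sm_succ, sm_succ, Finset.image_add, ih]

theorem superadd {B : Finset G} (h0 : (0 : G) ∈ B) {κ i j : ℕ} (hst : stab (sm κ B) = ⊥)
    (h : i + j ≤ κ) : (sm i B).card + (sm j B).card ≤ (sm (i + j) B).card + 1 := by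
  have hB : B.Nonempty := ⟨0, h0⟩
  have h1 := kneser (sm_nonempty hB i) (sm_nonempty hB j)
  rw [← sm_add] at h1
  have h2 : stab (sm (i + j) B) = ⊥ := by
    apply le_antisymm _ bot_le
    rw [← hst]
    exact stab_sm_mono h B
  rw [h2, card_els_bot] at h1
  exact h1

theorem superadd_mul {B : Finset G} (h0 : (0 : G) ∈ B) {κ q t : ℕ} (hst : stab (sm κ B) = ⊥)
    (h : q * t ≤ κ) : q * (sm t B).card + 1 ≤ (sm (q * t) B).card + q := by
  induction q with
  | zero => rw [Nat.zero_mul, Nat.zero_mul, sm_zero, Finset.card_singleton]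
  | succ q ih =>
    have hq : q * t ≤ κ := le_trans (Nat.mul_le_mul_right t (Nat.le_succ q)) h
    have h1 := ih hq
    have h2 : (sm (q * t) B).card + (sm t B).card ≤ (sm (q * t + t) B).card + 1 := by
      apply superadd h0 hst
      rw [← Nat.succ_mul]
      exact h
    rw [Nat.succ_mul, Nat.succ_mul]
    omega

end Finite

end Pool.Agent.H500R2.EO
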