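import Mathlib
import Pool.Agent.H500R2.EO.Defs
import Pool.Agent.H500R2.EO.Growth

/-!
# Passing to an aperiodic quotient; dense sets fill the group
-/

open Finset
open scoped Pointwise

namespace Pool.Agent.H500R2.EO

open Pool.Agent.Helper591.Kneser

section Finite

variable {G : Type} [AddCommGroup G] [Fintype G] [DecidableEq G]

/-- a set `C` is a union of fibres of the quotient map by its stabiliser -/
theorem G2_mem_of_mk_eq (C : Finset G) {x y : G}
    (h : (QuotientAddGroup.mk' (stab C)) x = (QuotientAddGroup.mk' (stab C)) y) (hy : y ∈ C) :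
    x ∈ C := by
  rw [QuotientAddGroup.mk'_apply, QuotientAddGroup.mk'_apply, QuotientAddGroup.eq] at h
  have h1 := (h x)
  have h2 : -x + y + x = y := by abel
  rw [h2] at h1
  exact h1.mp hy

theorem exists_aperiodic (B : Finset G) (κ : ℕ) (hκ : sm κ B ≠ univ) :
    ∃ (G' : Type) (_ : AddCommGroup G') (_ : Fintype G') (_ : DecidableEq G') (π : G →+ G'),
      Function.Surjective π ∧ sm κ (B.image π) ≠ univ ∧ stab (sm κ (B.image π)) = ⊥ ∧
      ∀ X : Finset G, X.card * Fintype.card G' ≤ (X.image π).card * Fintype.card G := by
  classical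
  set C := sm κ B with hC
  set K := stab C with hK
  letI : Fintype (G ⧸ K) := Fintype.ofFinite _
  letI : DecidableEq (G ⧸ K) := Classical.decEq _
  have hsurj : Function.Surjective (QuotientAddGroup.mk' K) := QuotientAddGroup.mk'_surjective K
  refine ⟨G ⧸ K, inferInstance, inferInstance, inferInstance, QuotientAddGroup.mk' K, hsurj,
    ?_, ?_, ?_⟩
  · rw [← sm_image, ← hC]
    intro huniv
    apply hκ
    rw [Finset.eq_univ_iff_forall]
    intro x
    have hx : (QuotientAddGroup.mk' K) x ∈ C.image (QuotientAddGroup.mk' K) := by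
      rw [huniv]; exact Finset.mem_univ _
    rw [Finset.mem_image] at hx
    obtain ⟨y, hy, hxy⟩ := hx
    exact G2_mem_of_mk_eq C hxy.symm hy
  · rw [← sm_image, ← hC]
    apply le_antisymm _ bot_le
    intro g hg
    obtain ⟨u, rfl⟩ := hsurj g
    rw [AddSubgroup.mem_bot]
    have hu : u ∈ K := by
      rw [hK]
      apply mem_stab_of_forall
      intro x hx
      have h1 : (QuotientAddGroup.mk' K) u + (QuotientAddGroup.mk' K) x ∈
          C.image (QuotientAddGroup.mk' K) :=
        (hg _).mpr (Finset.mem_image_of_mem _ hx)
      rw [← map_add, Finset.mem_image] at h1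
      obtain ⟨y, hy, hxy⟩ := h1
      exact G2_mem_of_mk_eq C hxy.symm hy
    rw [QuotientAddGroup.mk'_apply]
    exact (QuotientAddGroup.eq_zero_iff u).mpr hu
  · intro X
    have hcard : Fintype.card G = Fintype.card (G ⧸ K) * Fintype.card K := by
      have := AddSubgroup.card_eq_card_quotient_mul_card_addSubgroup K
      rw [Nat.card_eq_fintype_card, Nat.card_eq_fintype_card, Nat.card_eq_fintype_card] at this
      exact this
    have hX : X.card ≤ (X.image (QuotientAddGroup.mk' K)).card * Fintype.card K := by
      rw [mul_comm]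
      apply Finset.card_le_mul_card_image
      intro b hb
      rw [Finset.mem_image] at hb
      obtain ⟨y, hy, rfl⟩ := hb
      have hinj : (X.filter (fun a => (QuotientAddGroup.mk' K) a = (QuotientAddGroup.mk' K) y)).card
          ≤ (els K).card := by
        apply Finset.card_le_card_of_injOn (fun x => -y + x)
        · intro x hx
          have hx' := (Finset.mem_filter.mp (Finset.mem_coe.mp hx)).2
          rw [QuotientAddGroup.mk'_apply, QuotientAddGroup.mk'_apply] at hx'
          have h3 := QuotientAddGroup.eq.mp hx'.symm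
          exact Finset.mem_coe.mpr (mem_els.mpr h3)
        · intro x _ x' _ hxx
          exact add_right_injective _ hxx
      refine hinj.trans (le_of_eq ?_)
      rw [els, Fintype.card_subtype]
    calc X.card * Fintype.card (G ⧸ K)
        ≤ ((X.image (QuotientAddGroup.mk' K)).card * Fintype.card K) * Fintype.card (G ⧸ K) :=
          Nat.mul_le_mul_right _ hX
      _ = (X.image (QuotientAddGroup.mk' K)).card * Fintype.card G := by
          rw [hcard]; ring

theorem sm_eq_univ_of_dense {X : Finset G} (h0 : (0 : G) ∈ X)
    (hgen : AddSubgroup.closure (X : Set G) = ⊤) (t : ℕ)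
    (ht : 2 * Fintype.card G ≤ t * X.card) : sm t X = univ := by
  classical
  by_contra hne
  obtain ⟨G', iG, iF, iD, π, hsurj, hne', hst, hcardX⟩ := exists_aperiodic X t hne
  set X' := X.image π with hX'
  have hX0 : (0 : G') ∈ X' := by
    rw [hX', Finset.mem_image]
    exact ⟨0, h0, map_zero π⟩
  have hgpos : 0 < Fintype.card G := Fintype.card_pos
  have hg'pos : 0 < Fintype.card G' := Fintype.card_pos
  -- t |X'| >= 2 |G'|
  have h1 : 2 * Fintype.card G' ≤ t * X'.card := by
    have h2 := hcardX X
    have h3 : 2 * Fintype.card G * Fintype.card G' ≤ t * X'.card * Fintype.card G := by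
      calc 2 * Fintype.card G * Fintype.card G' ≤ t * X.card * Fintype.card G' :=
            Nat.mul_le_mul_right _ ht
        _ = t * (X.card * Fintype.card G') := by ring
        _ ≤ t * (X'.card * Fintype.card G) := Nat.mul_le_mul_left _ h2
        _ = t * X'.card * Fintype.card G := by ring
    have h4 : (2 * Fintype.card G') * Fintype.card G ≤ (t * X'.card) * Fintype.card G := by
      calc (2 * Fintype.card G') * Fintype.card G = 2 * Fintype.card G * Fintype.card G' := by ring
        _ ≤ _ := h3
    exact Nat.le_of_mul_le_mul_right h4 hgpos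
  have htpos : 1 ≤ t := by
    rcases Nat.eq_zero_or_pos t with h | h
    · rw [h, Nat.zero_mul] at h1
      omega
    · exact h
  have hk := kneser_sm (⟨0, hX0⟩ : X'.Nonempty) t htpos hst
  have hlt : (sm t X').card < Fintype.card G' := by
    rw [← Finset.card_univ]
    apply Finset.card_lt_card
    exact ⟨Finset.subset_univ _, fun h => hne' (Finset.Subset.antisymm (Finset.subset_univ _) h)⟩
  -- X' generates
  have hgen' : AddSubgroup.closure (X' : Set G') = ⊤ := by
    rw [hX', Finset.coe_image, ← AddMonoidHom.map_closure, hgen, ← AddMonoidHom.range_eq_map,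
      AddMonoidHom.range_eq_top.mpr hsurj]
  have h2 : 2 ≤ X'.card := by
    by_contra hlt2
    have h1c : X'.card ≤ 1 := by omega
    have hX1 : X' = {0} := by
      apply Finset.eq_singleton_iff_unique_mem.mpr
      refine ⟨hX0, ?_⟩
      intro x hx
      exact Finset.card_le_one.mp h1c x hx 0 hX0
    rw [hX1, Finset.coe_singleton, AddSubgroup.closure_singleton_zero] at hgen'
    -- G' trivial
    have htriv : ∀ x : G', x = 0 := by
      intro x
      have : x ∈ (⊥ : AddSubgroup G') := by rw [hgen']; exact AddSubgroup.mem_top x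
      exact (AddSubgroup.mem_bot).mp this
    have hc : Fintype.card G' ≤ 1 := by
      rw [Fintype.card_le_one_iff]
      intro a b
      rw [htriv a, htriv b]
    have hpos : 0 < (sm t X').card := Finset.card_pos.mpr (sm_nonempty ⟨0, hX0⟩ t)
    omega
  obtain ⟨c, hc⟩ : ∃ c, X'.card = c + 1 := ⟨X'.card - 1, by omega⟩
  rw [hc] at hk h1
  have h3 : t * (c + 1) = t * c + t := by ring
  have h4 : t * c + 1 ≤ Fintype.card G' - 1 := by omega
  have hc1 : 1 ≤ c := by omega
  have h5 : t ≤ t * c := by nlinarith
  omega

end Finite

end Pool.Agent.H500R2.EO
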