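import Mathlib
import Pool.Agent.H500R2.EO.Defs

/-! Module A (first half): a character with `‖χ (s b) - 1‖ < 1` is lifted to an integer valued
function with small values on `B`. -/

open Finset
open scoped Pointwise

namespace Pool.Agent.H500R2.EO

open Pool.Agent.Helper591.Kneser

/-- a `g`-th root of unity is `exp (2πik/g)` with `2|k| ≤ g` -/
theorem arc_root {g : ℕ} (hg : 0 < g) {z : ℂ} (hz : z ^ g = 1) :
    ∃ k : ℤ, 2 * |k| ≤ (g : ℤ) ∧
      z = Complex.exp (2 * Real.pi * Complex.I * ((k : ℂ) / (g : ℂ))) := by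
  have hgC : (g : ℂ) ≠ 0 := by exact_mod_cast hg.ne'
  have hprim := Complex.isPrimitiveRoot_exp g hg.ne'
  have : NeZero g := ⟨hg.ne'⟩
  obtain ⟨i, hi, hiz⟩ := hprim.eq_pow_of_pow_eq_one hz
  have hzi : z = Complex.exp (2 * Real.pi * Complex.I * ((i : ℂ) / (g : ℂ))) := by
    rw [← hiz, ← Complex.exp_nat_mul]
    congr 1
    ring
  by_cases h : 2 * i ≤ g
  · refine ⟨i, ?_, ?_⟩
    · rw [abs_of_nonneg (by positivity)]
      exact_mod_cast h
    · rw [hzi]; push_cast; rfl
  · refine ⟨(i : ℤ) - g, ?_, ?_⟩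
    · rw [abs_of_nonpos (by omega)]
      omega
    · rw [hzi]
      rw [Complex.exp_eq_exp_iff_exists_int]
      refine ⟨1, ?_⟩
      push_cast
      field_simp
      ring

theorem arc_norm (g : ℕ) (k : ℤ) (s : ℕ) :
    ‖Complex.exp (2 * Real.pi * Complex.I * ((k : ℂ) / (g : ℂ))) ^ s - 1‖ =
      2 * |Real.sin (Real.pi * (s * (|k| : ℤ) / g : ℝ))| := by
  rw [← Complex.exp_nat_mul]
  have h1 : ((s : ℂ) * (2 * Real.pi * Complex.I * ((k : ℂ) / (g : ℂ)))) =
      Complex.I * ((2 * (Real.pi * (s * k / g : ℝ)) : ℝ) : ℂ) := by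
    push_cast
    ring
  rw [h1, Complex.norm_exp_I_mul_ofReal_sub_one]
  rw [Real.norm_eq_abs, abs_mul, abs_of_pos (by norm_num : (0 : ℝ) < 2)]
  congr 1
  have h2 : 2 * (Real.pi * (s * k / g : ℝ)) / 2 = Real.pi * (s * k / g : ℝ) := by ring
  rw [h2]
  rcases le_total 0 k with hk | hk
  · rw [abs_of_nonneg hk]
  · rw [abs_of_nonpos hk]
    push_cast
    have h3 : Real.pi * ((s : ℝ) * (-(k : ℝ)) / g) = -(Real.pi * (s * k / g : ℝ)) := by ring
    rw [h3, Real.sin_neg, abs_neg]

/-- Module A (Arc.lean) -/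
theorem exists_lift {G : Type} [AddCommGroup G] [Fintype G] [DecidableEq G]
    (B : Finset G) (h0 : (0 : G) ∈ B)
    (hgen : AddSubgroup.closure (B : Set G) = ⊤) (χ : AddChar G ℂ) (hχ : χ ≠ 1) (S : ℕ)
    (hS : 1 ≤ S) (h : ∀ b ∈ B, ∀ s ≤ S, ‖χ (s • b) - 1‖ < 1) :
    ∃ f : G → ℤ, f 0 = 0 ∧ (∃ b ∈ B, f b ≠ 0) ∧
      (∀ b ∈ B, 6 * S * |f b| < (Fintype.card G : ℤ)) ∧
      ∀ m : ℤ, ((0 : G), m) ∈ Hs B f → (Fintype.card G : ℤ) ∣ m := by
  classical
  set g := Fintype.card G with hgdef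
  have hg : 0 < g := Fintype.card_pos
  have hgC : (g : ℂ) ≠ 0 := by exact_mod_cast hg.ne'
  have hroot : ∀ x : G, (χ x) ^ g = 1 := by
    intro x
    rw [← AddChar.map_nsmul_eq_pow, hgdef, card_nsmul_eq_zero, AddChar.map_zero_eq_one]
  choose F hF1 hF2 using fun x : G => arc_root hg (hroot x)
  let f : G → ℤ := fun x => if x = 0 then 0 else F x
  have hf0 : f 0 = 0 := by simp [f]
  have hf1 : ∀ x, 2 * |f x| ≤ (g : ℤ) := by
    intro x
    by_cases hx : x = 0
    · simp [f, hx]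
    · simp only [f, hx, if_false]; exact hF1 x
  have hf2 : ∀ x, χ x = Complex.exp (2 * Real.pi * Complex.I * ((f x : ℂ) / (g : ℂ))) := by
    intro x
    by_cases hx : x = 0
    · simp [f, hx]
    · simp only [f, hx, if_false]; exact hF2 x
  have hgR : (0 : ℝ) < g := by exact_mod_cast hg
  -- small values
  have hsmall : ∀ b ∈ B, 6 * S * |f b| < (g : ℤ) := by
    intro b hb
    by_contra hcon
    push Not at hcon
    have hex : ∃ s : ℕ, (g : ℤ) ≤ 6 * s * |f b| := ⟨S, hcon⟩
    set s := Nat.find hex with hs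
    have hs1 : (g : ℤ) ≤ 6 * s * |f b| := Nat.find_spec hex
    have hsS : s ≤ S := Nat.find_min' hex hcon
    have hspos : 1 ≤ s := by
      rcases Nat.eq_zero_or_pos s with h0' | h0'
      · rw [h0'] at hs1
        simp at hs1
        omega
      · exact h0'
    have hshalf : 2 * (s : ℤ) * |f b| ≤ g := by
      rcases Nat.lt_or_ge 1 s with h1 | h1
      · have hm1 : ¬ ((g : ℤ) ≤ 6 * (s - 1 : ℕ) * |f b|) := Nat.find_min hex (by omega)
        have hm2 : ¬ ((g : ℤ) ≤ 6 * (1 : ℕ) * |f b|) := Nat.find_min hex h1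
        push_cast [Nat.cast_sub hspos] at hm1 hm2
        nlinarith [abs_nonneg (f b)]
      · have : s = 1 := by omega
        rw [this]
        have := hf1 b
        push_cast
        linarith
    have hn := h b hb s hsS
    rw [AddChar.map_nsmul_eq_pow, hf2 b, arc_norm] at hn
    have hθ1 : Real.pi / 6 ≤ Real.pi * ((s : ℝ) * ((|f b| : ℤ) : ℝ) / g) := by
      have : (g : ℝ) ≤ 6 * s * ((|f b| : ℤ) : ℝ) := by exact_mod_cast hs1
      have h6 : (1 : ℝ) / 6 ≤ (s : ℝ) * ((|f b| : ℤ) : ℝ) / g := by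
        rw [div_le_div_iff₀ (by norm_num) hgR]
        linarith
      calc Real.pi / 6 = Real.pi * (1 / 6) := by ring
        _ ≤ _ := mul_le_mul_of_nonneg_left h6 Real.pi_pos.le
    have hθ2 : Real.pi * ((s : ℝ) * ((|f b| : ℤ) : ℝ) / g) ≤ Real.pi / 2 := by
      have : 2 * (s : ℝ) * ((|f b| : ℤ) : ℝ) ≤ g := by exact_mod_cast hshalf
      have h6 : (s : ℝ) * ((|f b| : ℤ) : ℝ) / g ≤ 1 / 2 := by
        rw [div_le_div_iff₀ hgR (by norm_num)]
        linarith
      calc _ ≤ Real.pi * (1 / 2) := mul_le_mul_of_nonneg_left h6 Real.pi_pos.le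
        _ = Real.pi / 2 := by ring
    have hsin : Real.sin (Real.pi / 6) ≤
        Real.sin (Real.pi * ((s : ℝ) * ((|f b| : ℤ) : ℝ) / g)) :=
      Real.sin_le_sin_of_le_of_le_pi_div_two (by linarith [Real.pi_pos]) hθ2 hθ1
    rw [Real.sin_pi_div_six] at hsin
    have := le_abs_self (Real.sin (Real.pi * ((s : ℝ) * ((|f b| : ℤ) : ℝ) / g)))
    linarith
  refine ⟨f, hf0, ?_, hsmall, ?_⟩
  · by_contra hcon
    push Not at hcon
    apply hχ
    have h1 : ∀ x ∈ AddSubgroup.closure (B : Set G), χ x = 1 := by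
      intro x hx
      induction hx using AddSubgroup.closure_induction with
      | mem x hx => rw [hf2 x, hcon x hx]; simp
      | zero => exact AddChar.map_zero_eq_one χ
      | add x y _ _ hx hy => rw [AddChar.map_add_eq_mul, hx, hy, one_mul]
      | neg x _ hx => rw [AddChar.map_neg_eq_inv, hx, inv_one]
    ext x
    rw [AddChar.one_apply]
    exact h1 x (by rw [hgen]; trivial)
  · intro m hm
    have key : ∀ y ∈ Hs B f,
        χ y.1 = Complex.exp (2 * Real.pi * Complex.I * ((y.2 : ℂ) / (g : ℂ))) := by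
      intro y hy
      unfold Hs at hy
      induction hy using AddSubgroup.closure_induction with
      | mem x hx =>
        obtain ⟨b, hb, rfl⟩ := hx
        exact hf2 b
      | zero => simp
      | add x y _ _ hx hy =>
        rw [Prod.fst_add, Prod.snd_add, AddChar.map_add_eq_mul, hx, hy, ← Complex.exp_add]
        congr 1
        push_cast
        ring
      | neg x _ hx =>
        rw [Prod.fst_neg, Prod.snd_neg, AddChar.map_neg_eq_inv, hx, ← Complex.exp_neg]
        congr 1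
        push_cast
        ring
    have h1 := key _ hm
    simp only [AddChar.map_zero_eq_one] at h1
    have h2 := (Complex.exp_eq_one_iff.mp h1.symm)
    obtain ⟨n, hn⟩ := h2
    have hpi : (2 * Real.pi * Complex.I : ℂ) ≠ 0 := Complex.two_pi_I_ne_zero
    have h3 : (m : ℂ) / g = n := by
      apply mul_left_cancel₀ hpi
      rw [hn]
      ring
    rw [div_eq_iff hgC] at h3
    have h4 : m = n * g := by exact_mod_cast h3
    exact ⟨n, by rw [h4]; ring⟩

end Pool.Agent.H500R2.EO
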