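import Mathlib
import Pool.Agent.H500R2.EO.Defs
import Pool.Agent.H500R2.EO.Growth
import Pool.Agent.H500R2.EO.Aper

/-! # Module H: the filling lemma. -/

set_option linter.unusedSectionVars false
set_option linter.unusedVariables false

open Finset
open scoped Pointwise

namespace Pool.Agent.H500R2.EO

open Pool.Agent.Helper591.Kneser

/-- sums of exactly `j` elements of a set of an additive monoid -/
def H_ms {M : Type*} [AddCommMonoid M] (S : Set M) : ℕ → Set M
  | 0 => {0}
  | j + 1 => {z | ∃ w ∈ H_ms S j, ∃ b ∈ S, z = w + b}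

theorem H_ms_add {M : Type*} [AddCommMonoid M] (S : Set M) (i j : ℕ) {z w : M}
    (hz : z ∈ H_ms S i) (hw : w ∈ H_ms S j) : z + w ∈ H_ms S (i + j) := by
  induction j generalizing w with
  | zero =>
    have : w = 0 := hw
    rw [this]
    simpa using hz
  | succ j ih =>
    obtain ⟨v, hv, b, hb, rfl⟩ := hw
    refine ⟨z + v, ih hv, b, hb, ?_⟩
    rw [add_assoc]

theorem H_ms_nsmul {M : Type*} [AddCommMonoid M] (S : Set M) (i : ℕ) {b : M}
    (hb : b ∈ S) : i • b ∈ H_ms S i := by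
  induction i with
  | zero => rw [zero_smul]; rfl
  | succ i ih => exact ⟨i • b, ih, b, hb, succ_nsmul b i⟩

theorem H_ms_closure {M : Type*} [AddCommGroup M] (S : Set M) (j : ℕ) {z : M}
    (hz : z ∈ H_ms S j) : z ∈ AddSubgroup.closure S := by
  induction j generalizing z with
  | zero =>
    have : z = 0 := hz
    rw [this]; exact zero_mem _
  | succ j ih =>
    obtain ⟨w, hw, b, hb, rfl⟩ := hz
    exact add_mem (ih hw) (AddSubgroup.subset_closure hb)

section

variable {G : Type} [AddCommGroup G] [Fintype G] [DecidableEq G]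

/-- the lifted set -/
def H_S (B : Finset G) (f : G → ℤ) : Set (G × ℤ) := (fun b => (b, f b)) '' (B : Set G)

theorem H_proj (B : Finset G) (f : G → ℤ) (j : ℕ) {z : G × ℤ} (hz : z ∈ H_ms (H_S B f) j) :
    z.1 ∈ sm j B := by
  induction j generalizing z with
  | zero =>
    have : z = 0 := hz
    rw [this, sm_zero]; simp
  | succ j ih =>
    obtain ⟨w, hw, b, hb, rfl⟩ := hz
    obtain ⟨c, hc, rfl⟩ := hb
    rw [sm_succ]
    exact Finset.add_mem_add (ih hw) hc

theorem H_lift (B : Finset G) (f : G → ℤ) (j : ℕ) {x : G} (hx : x ∈ sm j B) :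
    ∃ m : ℤ, (x, m) ∈ H_ms (H_S B f) j := by
  induction j generalizing x with
  | zero =>
    rw [sm_zero, Finset.mem_singleton] at hx
    exact ⟨0, by rw [hx]; rfl⟩
  | succ j ih =>
    rw [sm_succ, Finset.mem_add] at hx
    obtain ⟨y, hy, b, hb, rfl⟩ := hx
    obtain ⟨m, hm⟩ := ih hy
    exact ⟨m + f b, (y, m), hm, (b, f b), ⟨b, hb, rfl⟩, rfl⟩

theorem H_bounds (B : Finset G) (f : G → ℤ) {p q : G}
    (hmin : ∀ b ∈ B, f p ≤ f b) (hmax : ∀ b ∈ B, f b ≤ f q) (j : ℕ) {z : G × ℤ}
    (hz : z ∈ H_ms (H_S B f) j) : j * f p ≤ z.2 ∧ z.2 ≤ j * f q := by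
  induction j generalizing z with
  | zero =>
    have : z = 0 := hz
    rw [this]; simp
  | succ j ih =>
    obtain ⟨w, hw, b, hb, rfl⟩ := hz
    obtain ⟨c, hc, rfl⟩ := hb
    have h1 := ih hw
    have h2 := hmin c hc
    have h3 := hmax c hc
    push_cast
    constructor
    · show _ ≤ w.2 + f c
      nlinarith
    · show w.2 + f c ≤ _
      nlinarith

theorem H_fst (B : Finset G) (hgen : AddSubgroup.closure (B : Set G) = ⊤) (f : G → ℤ) (x : G) :
    ∃ m : ℤ, (x, m) ∈ Hs B f := by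
  have hmap : (Hs B f).map (AddMonoidHom.fst G ℤ) = ⊤ := by
    rw [Hs, AddMonoidHom.map_closure, Set.image_image]
    simpa using hgen
  have hx : x ∈ (Hs B f).map (AddMonoidHom.fst G ℤ) := by rw [hmap]; trivial
  obtain ⟨z, hz, hzx⟩ := hx
  refine ⟨z.2, ?_⟩
  have : z = (x, z.2) := Prod.ext hzx rfl
  rw [← this]
  exact hz

/-- Module H (Fill.lean) -/
theorem fill (B : Finset G) (h0 : (0 : G) ∈ B) (hgen : AddSubgroup.closure (B : Set G) = ⊤)
    (f : G → ℤ) (hf0 : f 0 = 0) (p q : G) (hp : p ∈ B) (hq : q ∈ B)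
    (hmin : ∀ b ∈ B, f p ≤ f b) (hmax : ∀ b ∈ B, f b ≤ f q) (L : ℕ) (hL : f q - f p = L)
    (hL0 : 0 < L) (ν : ℕ) (hν0 : 0 < ν) (hν : ((0 : G), (ν : ℤ)) ∈ Hs B f)
    (hνmin : ∀ m : ℤ, ((0 : G), m) ∈ Hs B f → (ν : ℤ) ∣ m) (r t k : ℕ)
    (hrg : Fintype.card G ≤ (r + 1) * (sm r B).card)
    (ht : 2 * (r + 1) ^ 2 ≤ t * (ν / L)) (hk : 2 * (t * r) + ν / L + 1 ≤ k) :
    sm k B = univ := by
  classical
  -- notation
  set H : AddSubgroup (G × ℤ) := Hs B f with hH
  have hS : ∀ b ∈ B, (b, f b) ∈ H_S B f := fun b hb => ⟨b, hb, rfl⟩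
  have hSH : ∀ b ∈ B, (b, f b) ∈ H := fun b hb => AddSubgroup.subset_closure (hS b hb)
  set u : G × ℤ := (q - p, (L : ℤ)) with hu
  have hueq : u = (q, f q) - (p, f p) := by
    rw [hu, ← hL]; rfl
  have huH : u ∈ H := by rw [hueq]; exact sub_mem (hSH q hq) (hSH p hp)
  have hLZ : (0 : ℤ) < (L : ℤ) := by exact_mod_cast hL0
  let U : AddSubgroup H := AddSubgroup.zmultiples (⟨u, huH⟩ : H)
  let C := H ⧸ U
  let mk : H →+ C := QuotientAddGroup.mk' U
  have hmk : ∀ z w : H, mk z = mk w ↔ ∃ i : ℤ, (z : G × ℤ) = w + i • u := by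
    intro z w
    rw [← sub_eq_zero, ← map_sub, QuotientAddGroup.mk'_apply, QuotientAddGroup.eq_zero_iff,
      AddSubgroup.mem_zmultiples_iff]
    constructor
    · rintro ⟨i, hi⟩
      refine ⟨i, ?_⟩
      have := congrArg (fun v : H => (v : G × ℤ)) hi
      simp only [AddSubgroup.coe_sub, AddSubgroup.coe_zsmul] at this
      rw [this]; abel
    · rintro ⟨i, hi⟩
      refine ⟨i, Subtype.ext ?_⟩
      simp only [AddSubgroup.coe_sub, AddSubgroup.coe_zsmul]
      rw [hi]; abel
  -- representatives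
  have hrep : ∀ c : C, ∃ z : H, mk z = c ∧ 0 ≤ (z : G × ℤ).2 ∧ (z : G × ℤ).2 < L := by
    intro c
    obtain ⟨w, rfl⟩ := QuotientAddGroup.mk'_surjective U c
    refine ⟨w - ((w : G × ℤ).2 / (L : ℤ)) • ⟨u, huH⟩, ?_, ?_, ?_⟩
    · show mk _ = mk _
      rw [hmk]
      refine ⟨-((w : G × ℤ).2 / (L : ℤ)), ?_⟩
      simp only [AddSubgroup.coe_sub, AddSubgroup.coe_zsmul]
      rw [neg_smul, sub_eq_add_neg]
    · simp only [AddSubgroup.coe_sub, AddSubgroup.coe_zsmul, Prod.snd_sub, Prod.smul_snd, hu,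
        smul_eq_mul]
      have := Int.emod_nonneg (w : G × ℤ).2 (ne_of_gt hLZ)
      have h2 := Int.emod_add_mul_ediv (w : G × ℤ).2 (L : ℤ)
      nlinarith
    · simp only [AddSubgroup.coe_sub, AddSubgroup.coe_zsmul, Prod.snd_sub, Prod.smul_snd, hu,
        smul_eq_mul]
      have := Int.emod_lt_of_pos (w : G × ℤ).2 hLZ
      have h2 := Int.emod_add_mul_ediv (w : G × ℤ).2 (L : ℤ)
      nlinarith
  choose rep hrep1 hrep2 hrep3 using hrep
  -- finiteness
  have hfin : Finite C := by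
    apply Finite.of_injective (fun c : C => ((rep c : G × ℤ).1,
      (⟨(rep c : G × ℤ).2.toNat, by
        have h1 := hrep2 c
        have h2 := hrep3 c
        omega⟩ : Fin L)))
    intro c c' hcc
    have h1 : (rep c : G × ℤ).1 = (rep c' : G × ℤ).1 := (Prod.ext_iff.mp hcc).1
    have h2 : (rep c : G × ℤ).2.toNat = (rep c' : G × ℤ).2.toNat :=
      congrArg Fin.val (Prod.ext_iff.mp hcc).2
    have h3 : (rep c : G × ℤ).2 = (rep c' : G × ℤ).2 := by
      have := hrep2 c
      have := hrep2 c'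
      omega
    have h4 : rep c = rep c' := Subtype.ext (Prod.ext h1 h3)
    rw [← hrep1 c, ← hrep1 c', h4]
  have : Fintype C := Fintype.ofFinite C
  set μ := ν / L with hμ
  have hμL : μ * L ≤ ν := Nat.div_mul_le_self ν L
  -- (a)
  have ha : Fintype.card C * μ ≤ Fintype.card G := by
    have hinj : Function.Injective (fun ci : C × Fin μ =>
        (rep ci.1 : G × ℤ).1 + (ci.2 : ℕ) • (q - p)) := by
      rintro ⟨c, i⟩ ⟨c', i'⟩ hcc
      simp only at hcc
      have hi := i.2
      have hi' := i'.2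
      have hdiff : ((0 : G), (rep c : G × ℤ).2 + (i : ℕ) * L - ((rep c' : G × ℤ).2 + (i' : ℕ) * L))
          ∈ H := by
        have : ((0 : G), (rep c : G × ℤ).2 + (i : ℕ) * L - ((rep c' : G × ℤ).2 + (i' : ℕ) * L))
            = ((rep c : G × ℤ) + (i : ℕ) • u) - ((rep c' : G × ℤ) + (i' : ℕ) • u) := by
          apply Prod.ext
          · simp only [Prod.fst_sub, Prod.fst_add, Prod.smul_fst, hu]
            rw [hcc, sub_self]
          · simp only [Prod.snd_sub, Prod.snd_add, Prod.smul_snd, hu, nsmul_eq_mul]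
        rw [this]
        exact sub_mem (add_mem (rep c).2 (nsmul_mem huH _)) (add_mem (rep c').2 (nsmul_mem huH _))
      have hdvd := hνmin _ hdiff
      have hb1 := hrep2 c
      have hb2 := hrep3 c
      have hb3 := hrep2 c'
      have hb4 := hrep3 c'
      have hiL : ((i : ℕ) : ℤ) * L + L ≤ ν := by
        have : ((i : ℕ) + 1) * L ≤ ν := le_trans (Nat.mul_le_mul_right L hi) hμL
        have h2 : ((((i : ℕ) + 1) * L : ℕ) : ℤ) ≤ (ν : ℤ) := by exact_mod_cast this
        push_cast at h2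
        linarith
      have hiL' : ((i' : ℕ) : ℤ) * L + L ≤ ν := by
        have : ((i' : ℕ) + 1) * L ≤ ν := le_trans (Nat.mul_le_mul_right L hi') hμL
        have h2 : ((((i' : ℕ) + 1) * L : ℕ) : ℤ) ≤ (ν : ℤ) := by exact_mod_cast this
        push_cast at h2
        linarith
      have hn1 : (0 : ℤ) ≤ ((i : ℕ) : ℤ) * L := by positivity
      have hn2 : (0 : ℤ) ≤ ((i' : ℕ) : ℤ) * L := by positivity
      have hzero : (rep c : G × ℤ).2 + (i : ℕ) * L - ((rep c' : G × ℤ).2 + (i' : ℕ) * L) = 0 := by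
        apply Int.eq_zero_of_abs_lt_dvd hdvd
        rw [abs_lt]
        constructor <;> linarith
      have hcc' : c = c' := by
        rw [← hrep1 c, ← hrep1 c', hmk]
        refine ⟨((i' : ℕ) : ℤ) - ((i : ℕ) : ℤ), ?_⟩
        apply Prod.ext
        · have h7 := eq_sub_of_add_eq hcc
          rw [h7, Prod.fst_add, Prod.smul_fst, sub_smul, natCast_zsmul, natCast_zsmul]
          show _ = _ + ((i' : ℕ) • (q - p) - (i : ℕ) • (q - p))
          abel
        · simp only [Prod.snd_add, Prod.smul_snd, hu, smul_eq_mul]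
          linarith
      subst hcc'
      have : ((i : ℕ) : ℤ) * L = ((i' : ℕ) : ℤ) * L := by linarith
      have h5 : ((i : ℕ) : ℤ) = ((i' : ℕ) : ℤ) := mul_right_cancel₀ (ne_of_gt hLZ) this
      have h6 : (i : ℕ) = (i' : ℕ) := by exact_mod_cast h5
      rw [Fin.ext h6]
    have := Fintype.card_le_of_injective _ hinj
    rwa [Fintype.card_prod, Fintype.card_fin] at this
  -- the set X
  set X : Finset C := univ.filter (fun c => ∃ z : H, (z : G × ℤ) ∈ H_ms (H_S B f) r ∧ mk z = c)
    with hX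
  have hmemX : ∀ c : C, c ∈ X ↔ ∃ z : H, (z : G × ℤ) ∈ H_ms (H_S B f) r ∧ mk z = c := by
    intro c; rw [hX, Finset.mem_filter]; simp
  have hmsH : ∀ (j : ℕ) (z : G × ℤ), z ∈ H_ms (H_S B f) j → z ∈ H :=
    fun j z hz => H_ms_closure _ j hz
  -- (b)
  have hb : (sm r B).card ≤ (r + 1) * X.card := by
    have hch : ∀ x : G, ∃ m : ℤ, x ∈ sm r B → (x, m) ∈ H_ms (H_S B f) r := by
      intro x
      by_cases hx : x ∈ sm r B
      · obtain ⟨m, hm⟩ := H_lift B f r hx
        exact ⟨m, fun _ => hm⟩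
      · exact ⟨0, fun h => absurd h hx⟩
    choose m hm using hch
    let φ : G → C := fun x => if hx : x ∈ sm r B then mk ⟨(x, m x), hmsH r _ (hm x hx)⟩ else 0
    have hφ : ∀ x (hx : x ∈ sm r B), φ x = mk ⟨(x, m x), hmsH r _ (hm x hx)⟩ := by
      intro x hx
      simp only [φ, dif_pos hx]
    apply Finset.card_le_mul_card_image_of_maps_to (f := φ)
    · intro x hx
      rw [hφ x hx, hmemX]
      exact ⟨_, hm x hx, rfl⟩
    · intro c hc
      rw [← Finset.card_range (r + 1)]
      have hbd : ∀ x ∈ sm r B, 0 ≤ (m x - r * f p) / (L : ℤ) ∧ (m x - r * f p) / (L : ℤ) ≤ r := by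
        intro x hx
        have := H_bounds B f hmin hmax r (hm x hx)
        simp only at this
        constructor
        · apply Int.ediv_nonneg _ hLZ.le
          linarith
        · apply Int.ediv_le_of_le_mul hLZ
          have : m x ≤ r * f q := this.2
          have h3 : f q = L + f p := by linarith
          rw [h3] at this
          linarith
      apply Finset.card_le_card_of_injOn (fun x => ((m x - r * f p) / (L : ℤ)).toNat)
      · intro x hx
        rw [Finset.mem_coe, Finset.mem_filter] at hx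
        have := hbd x hx.1
        rw [Finset.mem_coe, Finset.mem_range]
        simp only
        omega
      · intro x hx y hy hxy
        rw [Finset.mem_coe, Finset.mem_filter] at hx hy
        have h1 := hbd x hx.1
        have h2 := hbd y hy.1
        simp only at hxy
        have hxy' : (m x - r * f p) / (L : ℤ) = (m y - r * f p) / (L : ℤ) := by omega
        have h3 : φ x = φ y := by rw [hx.2, hy.2]
        rw [hφ x hx.1, hφ y hy.1, hmk] at h3
        obtain ⟨i, hi⟩ := h3
        have hi2 : m x = m y + i * L := by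
          have := congrArg Prod.snd hi
          simpa [hu] using this
        have hi1 : x = y + i • (q - p) := by
          have := congrArg Prod.fst hi
          simpa [hu] using this
        have h4 : (m x - r * f p) / (L : ℤ) = (m y - r * f p) / (L : ℤ) + i := by
          rw [hi2, show m y + i * L - r * f p = (m y - r * f p) + i * L by ring,
            Int.add_mul_ediv_right _ _ (ne_of_gt hLZ)]
        have h5 : i = 0 := by linarith
        rw [hi1, h5, zero_smul, add_zero]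
  -- (c)
  have hr1 : 1 ≤ r := by
    by_contra hr
    have hr0 : r = 0 := by omega
    subst hr0
    rw [sm_zero, Finset.card_singleton] at hrg
    have hsub : Subsingleton G := Fintype.card_le_one_iff_subsingleton.mp (by simpa using hrg)
    have : p = q := Subsingleton.elim _ _
    rw [this, sub_self] at hL
    omega
  have h0S : (0 : G × ℤ) ∈ H_S B f := ⟨0, h0, by simp [hf0]⟩
  have h0X : (0 : C) ∈ X := by
    rw [hmemX]
    refine ⟨0, ?_, map_zero mk⟩
    have := H_ms_nsmul (H_S B f) r h0S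
    rwa [smul_zero] at this
  have hgenX : AddSubgroup.closure (X : Set C) = ⊤ := by
    have h1 : AddSubgroup.closure ((fun z : H => (z : G × ℤ)) ⁻¹' (H_S B f)) = ⊤ :=
      AddSubgroup.closure_closure_coe_preimage
    have h2 : (AddSubgroup.closure ((fun z : H => (z : G × ℤ)) ⁻¹' (H_S B f))).map mk = ⊤ := by
      rw [h1]
      exact AddSubgroup.map_top_of_surjective mk (QuotientAddGroup.mk'_surjective U)
    rw [AddMonoidHom.map_closure] at h2
    rw [eq_top_iff, ← h2]
    apply AddSubgroup.closure_mono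
    rintro c ⟨z, hz, rfl⟩
    rw [Finset.mem_coe, hmemX]
    refine ⟨z, ?_, rfl⟩
    obtain ⟨r', rfl⟩ : ∃ r', r = r' + 1 := ⟨r - 1, by omega⟩
    refine ⟨0, ?_, z, hz, (zero_add _).symm⟩
    have := H_ms_nsmul (H_S B f) r' h0S
    rwa [smul_zero] at this
  have hXcard : 2 * Fintype.card C ≤ t * X.card := by
    have h1 : t * μ * Fintype.card C ≤ t * ((r + 1) * ((r + 1) * X.card)) := by
      calc t * μ * Fintype.card C = t * (Fintype.card C * μ) := by ring
        _ ≤ t * Fintype.card G := Nat.mul_le_mul_left t ha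
        _ ≤ t * ((r + 1) * (sm r B).card) := Nat.mul_le_mul_left t hrg
        _ ≤ t * ((r + 1) * ((r + 1) * X.card)) :=
          Nat.mul_le_mul_left t (Nat.mul_le_mul_left _ hb)
    have h2 : 2 * (r + 1) ^ 2 * Fintype.card C ≤ t * μ * Fintype.card C :=
      Nat.mul_le_mul_right _ ht
    have h3 : (r + 1) ^ 2 * (2 * Fintype.card C) ≤ (r + 1) ^ 2 * (t * X.card) := by
      calc (r + 1) ^ 2 * (2 * Fintype.card C) = 2 * (r + 1) ^ 2 * Fintype.card C := by ring
        _ ≤ _ := le_trans h2 h1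
        _ = _ := by ring
    exact Nat.le_of_mul_le_mul_left h3 (by positivity)
  have hXuniv : sm t X = univ := sm_eq_univ_of_dense h0X hgenX t hXcard
  have hlift : ∀ (j : ℕ) (c : C), c ∈ sm j X → ∃ s : H, (s : G × ℤ) ∈ H_ms (H_S B f) (j * r) ∧
      mk s = c := by
    intro j
    induction j with
    | zero =>
      intro c hc
      rw [sm_zero, Finset.mem_singleton] at hc
      refine ⟨0, ?_, by rw [hc, map_zero]⟩
      rw [zero_mul]; rfl
    | succ j ih =>
      intro c hc
      rw [sm_succ, Finset.mem_add] at hc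
      obtain ⟨c1, hc1, c2, hc2, rfl⟩ := hc
      obtain ⟨s1, hs1, rfl⟩ := ih c1 hc1
      rw [hmemX] at hc2
      obtain ⟨s2, hs2, rfl⟩ := hc2
      refine ⟨s1 + s2, ?_, map_add mk s1 s2⟩
      rw [Nat.succ_mul]
      exact H_ms_add _ _ _ hs1 hs2
  -- (d)
  rw [Finset.eq_univ_iff_forall]
  intro x
  set j₀ := t * r with hj₀
  have hj₀k : j₀ ≤ k := by
    have h1 : 0 ≤ μ := Nat.zero_le _
    linarith
  obtain ⟨m₀, hm₀⟩ := H_fst B hgen f x
  have hνZ : (0 : ℤ) < (ν : ℤ) := by exact_mod_cast hν0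
  -- adjust m
  obtain ⟨m, hmH, hm1, hm2⟩ : ∃ m : ℤ, (x, m) ∈ H ∧ j₀ * f q ≤ m - (k - j₀ : ℕ) * f p ∧
      m - (k - j₀ : ℕ) * f p < j₀ * f q + ν := by
    set e : ℤ := m₀ - (k - j₀ : ℕ) * f p - j₀ * f q with he
    refine ⟨m₀ - (e / ν) * ν, ?_, ?_, ?_⟩
    · have : (x, m₀ - (e / ν) * ν) = (x, m₀) - (e / ν) • ((0 : G), (ν : ℤ)) := by
        apply Prod.ext <;> simp
      rw [this]
      exact sub_mem hm₀ (zsmul_mem hν _)
    · have h1 := Int.emod_nonneg e (ne_of_gt hνZ)
      have h2 := Int.emod_add_mul_ediv e (ν : ℤ)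
      rw [mul_comm (ν : ℤ)] at h2
      linarith
    · have h1 := Int.emod_lt_of_pos e hνZ
      have h2 := Int.emod_add_mul_ediv e (ν : ℤ)
      rw [mul_comm (ν : ℤ)] at h2
      linarith
  have hpH : (p, f p) ∈ H := hSH p hp
  let z : H := ⟨(x, m), hmH⟩ - (k - j₀) • ⟨(p, f p), hpH⟩
  have hzX : mk z ∈ sm t X := by rw [hXuniv]; exact Finset.mem_univ _
  obtain ⟨s, hs, hsz⟩ := hlift t (mk z) hzX
  rw [← hj₀] at hs
  obtain ⟨i, hi⟩ := (hmk z s).mp hsz.symm
  have hzc : (z : G × ℤ) = (x, m) - (k - j₀) • (p, f p) := by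
    simp only [z, AddSubgroup.coe_sub, AddSubgroup.coe_nsmul]
  rw [hzc] at hi
  have hsb := H_bounds B f hmin hmax j₀ hs
  have hi2 : m - (k - j₀ : ℕ) * f p = (s : G × ℤ).2 + i * L := by
    have := congrArg Prod.snd hi
    simpa [hu] using this
  have hfq : f q = L + f p := by linarith
  have hj₀nn : (0 : ℤ) ≤ (j₀ : ℤ) := Int.natCast_nonneg _
  have hi0 : 0 ≤ i := by
    by_contra hneg
    push Not at hneg
    have : i * L < 0 := mul_neg_of_neg_of_pos hneg hLZ
    linarith [hsb.2]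
  have hνlt : (ν : ℤ) < L * (μ + 1) := by
    have := Nat.lt_mul_div_succ ν hL0
    rw [← hμ] at this
    exact_mod_cast this
  have hile : i < μ + 1 + j₀ := by
    by_contra hneg
    push Not at hneg
    have h1 : (μ + 1 + j₀ : ℤ) * L ≤ i * L := mul_le_mul_of_nonneg_right hneg hLZ.le
    have h2 := hsb.1
    rw [hfq] at hm2
    nlinarith
  obtain ⟨i', rfl⟩ : ∃ i' : ℕ, i = (i' : ℤ) := ⟨i.toNat, (Int.toNat_of_nonneg hi0).symm⟩
  have hik : i' ≤ k - j₀ := by
    have : i' < μ + 1 + j₀ := by exact_mod_cast hile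
    omega
  have hfinal : (x, m) ∈ H_ms (H_S B f) k := by
    have h1 : (x, m) = (s : G × ℤ) + ((k - j₀ - i') • (p, f p) + i' • (q, f q)) := by
      have h2 : (x, m) = (s : G × ℤ) + (i' : ℤ) • u + (k - j₀) • (p, f p) := by
        rw [← hi]; abel
      have h3 : (k - j₀) • ((p, f p) : G × ℤ)
          = (k - j₀ - i') • ((p, f p) : G × ℤ) + i' • ((p, f p) : G × ℤ) := by
        rw [← add_smul]; congr 1; omega
      rw [h2, h3, hueq, natCast_zsmul, smul_sub]
      abel
    rw [h1]
    have h4 : j₀ + ((k - j₀ - i') + i') = k := by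
      rw [Nat.sub_add_cancel hik, Nat.add_sub_cancel' hj₀k]
    have h5 := H_ms_add _ _ _ (H_ms_nsmul (H_S B f) (k - j₀ - i') (hS p hp))
      (H_ms_nsmul (H_S B f) i' (hS q hq))
    have h6 := H_ms_add _ _ _ hs h5
    rw [h4] at h6
    exact h6
  exact H_proj B f k hfinal

end

end Pool.Agent.H500R2.EO
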