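import Mathlib
import Pool.Agent.H500R2.EO.Defs

/-! Module F: a character close to `1` on the multiples of `B`. -/

open Finset
open scoped Pointwise ComplexConjugate

set_option linter.unusedSectionVars false

namespace Pool.Agent.H500R2.EO

open Pool.Agent.Helper591.Kneser

variable {G : Type} [AddCommGroup G] [Fintype G] [DecidableEq G]

theorem F_parseval (F : G → ℝ) :
    ∑ χ : AddChar G ℂ, ‖∑ x, (F x : ℂ) * χ x‖ ^ 2 = Fintype.card G * ∑ x, F x ^ 2 := by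
  have key : (∑ χ : AddChar G ℂ, (∑ x, (F x : ℂ) * χ x) * conj (∑ y, (F y : ℂ) * χ y))
      = (Fintype.card G : ℂ) * ∑ x, (F x : ℂ) ^ 2 := by
    have e1 : ∀ χ : AddChar G ℂ, (∑ x, (F x : ℂ) * χ x) * conj (∑ y, (F y : ℂ) * χ y)
        = ∑ x, ∑ y, (F x : ℂ) * (F y : ℂ) * χ (x - y) := by
      intro χ
      rw [map_sum, Finset.sum_mul_sum]
      refine Finset.sum_congr rfl fun x _ => Finset.sum_congr rfl fun y _ => ?_
      rw [map_mul, Complex.conj_ofReal, ← AddChar.map_neg_eq_conj, sub_eq_add_neg,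
        AddChar.map_add_eq_mul]
      ring
    rw [Finset.sum_congr rfl fun χ _ => e1 χ, Finset.sum_comm, Finset.mul_sum]
    refine Finset.sum_congr rfl fun x _ => ?_
    rw [Finset.sum_comm]
    have e2 : ∀ y : G, ∑ χ : AddChar G ℂ, (F x : ℂ) * (F y : ℂ) * χ (x - y)
        = if x = y then (Fintype.card G : ℂ) * ((F x : ℂ) * (F y : ℂ)) else 0 := by
      intro y
      rw [← Finset.mul_sum, AddChar.sum_apply_eq_ite]
      by_cases h : x = y
      · simp [h]; ring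
      · rw [if_neg (sub_ne_zero.mpr h), if_neg h, mul_zero]
    rw [Finset.sum_congr rfl fun y _ => e2 y]
    simp [pow_two]
  have e3 : ∀ χ : AddChar G ℂ, (∑ x, (F x : ℂ) * χ x) * conj (∑ y, (F y : ℂ) * χ y)
      = ((‖∑ x, (F x : ℂ) * χ x‖ ^ 2 : ℝ) : ℂ) := by
    intro χ
    rw [Complex.mul_conj, Complex.normSq_eq_norm_sq]
  rw [Finset.sum_congr rfl fun χ _ => e3 χ] at key
  have : ((∑ χ : AddChar G ℂ, ‖∑ x, (F x : ℂ) * χ x‖ ^ 2 : ℝ) : ℂ)
      = ((Fintype.card G * ∑ x, F x ^ 2 : ℝ) : ℂ) := by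
    push_cast
    push_cast at key
    exact key
  exact_mod_cast this

/-- number of elements of `x + Z` outside `Z` -/
def F_rho (Z : Finset G) (x : G) : ℕ := (Z.image (fun z => x + z) \ Z).card

theorem F_card_image (Z : Finset G) (x : G) : (Z.image (fun z => x + z)).card = Z.card :=
  Finset.card_image_of_injective _ (add_right_injective x)

theorem F_rho_zero (Z : Finset G) : F_rho Z 0 = 0 := by
  simp [F_rho]

theorem F_rho_add (Z : Finset G) (x y : G) : F_rho Z (x + y) ≤ F_rho Z x + F_rho Z y := by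
  unfold F_rho
  have h1 : Z.image (fun z => x + y + z) \ Z ⊆
      (Z.image (fun z => x + z) \ Z) ∪ ((Z.image (fun z => y + z) \ Z).image (fun z => x + z)) := by
    intro w hw
    rw [Finset.mem_sdiff, Finset.mem_image] at hw
    obtain ⟨⟨z, hz, rfl⟩, hw⟩ := hw
    rw [Finset.mem_union]
    by_cases h : y + z ∈ Z
    · left
      rw [Finset.mem_sdiff, Finset.mem_image]
      exact ⟨⟨y + z, h, by abel⟩, hw⟩
    · right
      rw [Finset.mem_image]
      refine ⟨y + z, ?_, by abel⟩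
      rw [Finset.mem_sdiff, Finset.mem_image]
      exact ⟨⟨z, hz, rfl⟩, h⟩
  refine (Finset.card_le_card h1).trans ((Finset.card_union_le _ _).trans ?_)
  exact Nat.add_le_add_left Finset.card_image_le _

theorem F_sm_mono {B : Finset G} (h0 : (0 : G) ∈ B) {i j : ℕ} (h : i ≤ j) : sm i B ⊆ sm j B := by
  induction j, h using Nat.le_induction with
  | base => exact Finset.Subset.refl _
  | succ j _ ih =>
    rw [sm_succ]
    intro x hx
    rw [Finset.mem_add]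
    exact ⟨x, ih hx, 0, h0, add_zero x⟩

theorem F_rho_sm {B Z : Finset G} {Δ : ℕ} (hB : ∀ b ∈ B, F_rho Z b ≤ Δ) (s : ℕ) :
    ∀ x ∈ sm s B, F_rho Z x ≤ s * Δ := by
  induction s with
  | zero =>
    intro x hx
    rw [sm_zero, Finset.mem_singleton] at hx
    rw [hx, F_rho_zero]; exact Nat.zero_le _
  | succ s ih =>
    intro x hx
    rw [sm_succ, Finset.mem_add] at hx
    obtain ⟨y, hy, b, hb, rfl⟩ := hx
    calc F_rho Z (y + b) ≤ F_rho Z y + F_rho Z b := F_rho_add _ _ _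
      _ ≤ s * Δ + Δ := Nat.add_le_add (ih y hy) (hB b hb)
      _ = (s + 1) * Δ := by ring

theorem F_nsmul_mem {B : Finset G} {b : G} (hb : b ∈ B) (s : ℕ) : s • b ∈ sm s B := by
  induction s with
  | zero => rw [sm_zero, zero_smul]; exact Finset.mem_singleton_self _
  | succ s ih =>
    rw [sm_succ, Finset.mem_add]
    exact ⟨s • b, ih, b, hb, by rw [succ_nsmul]⟩

/-- the exponential sum over `Z` -/
noncomputable def F_S (Z : Finset G) (χ : AddChar G ℂ) : ℂ := ∑ z ∈ Z, χ z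

theorem F_sum_S (Z : Finset G) :
    ∑ χ : AddChar G ℂ, ‖F_S Z χ‖ ^ 2 = Fintype.card G * Z.card := by
  have h := F_parseval (fun x : G => if x ∈ Z then (1 : ℝ) else 0)
  have e1 : ∀ χ : AddChar G ℂ,
      ∑ x, (((if x ∈ Z then (1 : ℝ) else 0 : ℝ)) : ℂ) * χ x = F_S Z χ := by
    intro χ
    unfold F_S
    rw [← Finset.sum_filter_add_sum_filter_not univ (fun x => x ∈ Z)]
    have a1 : ∑ x ∈ univ.filter (fun x => x ∈ Z), (((if x ∈ Z then (1 : ℝ) else 0 : ℝ)) : ℂ) * χ x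
        = ∑ z ∈ Z, χ z := by
      rw [Finset.filter_mem_eq_inter, Finset.univ_inter]
      refine Finset.sum_congr rfl fun x hx => ?_
      rw [if_pos hx]; simp
    have a2 : ∑ x ∈ univ.filter (fun x => ¬ x ∈ Z),
        (((if x ∈ Z then (1 : ℝ) else 0 : ℝ)) : ℂ) * χ x = 0 := by
      refine Finset.sum_eq_zero fun x hx => ?_
      rw [Finset.mem_filter] at hx
      rw [if_neg hx.2]; simp
    rw [a1, a2, add_zero]
  have e2 : ∑ x : G, (if x ∈ Z then (1 : ℝ) else 0) ^ 2 = Z.card := by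
    simp
  rw [Finset.sum_congr rfl fun χ _ => by rw [e1 χ], e2] at h
  exact h

theorem F_shift (Z : Finset G) (x : G) (χ : AddChar G ℂ) :
    (χ x - 1) * F_S Z χ = F_S (Z.image (fun z => x + z) \ Z) χ
      - F_S (Z \ Z.image (fun z => x + z)) χ := by
  have h1 : χ x * F_S Z χ = F_S (Z.image (fun z => x + z)) χ := by
    unfold F_S
    rw [Finset.mul_sum, Finset.sum_image (fun a _ b _ h => add_right_injective x h)]
    refine Finset.sum_congr rfl fun z _ => ?_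
    rw [AddChar.map_add_eq_mul]
  have h2 := Finset.sum_sdiff_sub_sum_sdiff (s₁ := Z.image (fun z => x + z)) (s₂ := Z)
    (f := fun z => χ z)
  unfold F_S at *
  rw [sub_mul, one_mul, h1]
  linear_combination h2

theorem F_sum_shift (Z : Finset G) (x : G) :
    ∑ χ : AddChar G ℂ, ‖χ x - 1‖ ^ 2 * ‖F_S Z χ‖ ^ 2 = 2 * Fintype.card G * F_rho Z x := by
  set X : Finset G := Z.image (fun z => x + z) with hX
  have hXc : X.card = Z.card := F_card_image Z x
  have h := F_parseval (fun y : G => (if y ∈ X \ Z then (1 : ℝ) else 0)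
    - (if y ∈ Z \ X then (1 : ℝ) else 0))
  have e1 : ∀ χ : AddChar G ℂ,
      ‖∑ y, (((if y ∈ X \ Z then (1 : ℝ) else 0) - (if y ∈ Z \ X then (1 : ℝ) else 0) : ℝ) : ℂ)
        * χ y‖ ^ 2 = ‖χ x - 1‖ ^ 2 * ‖F_S Z χ‖ ^ 2 := by
    intro χ
    rw [← mul_pow, ← norm_mul, F_shift]
    congr 2
    unfold F_S
    rw [← hX]
    have a1 : ∀ W : Finset G, ∑ y, (((if y ∈ W then (1 : ℝ) else 0) : ℝ) : ℂ) * χ y
        = ∑ z ∈ W, χ z := by
      intro W
      rw [← Finset.sum_filter_add_sum_filter_not univ (fun x => x ∈ W)]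
      have a1 : ∑ x ∈ univ.filter (fun x => x ∈ W),
          (((if x ∈ W then (1 : ℝ) else 0 : ℝ)) : ℂ) * χ x = ∑ z ∈ W, χ z := by
        rw [Finset.filter_mem_eq_inter, Finset.univ_inter]
        refine Finset.sum_congr rfl fun x hx => ?_
        rw [if_pos hx]; simp
      have a2 : ∑ x ∈ univ.filter (fun x => ¬ x ∈ W),
          (((if x ∈ W then (1 : ℝ) else 0 : ℝ)) : ℂ) * χ x = 0 := by
        refine Finset.sum_eq_zero fun x hx => ?_
        rw [Finset.mem_filter] at hx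
        rw [if_neg hx.2]; simp
      rw [a1, a2, add_zero]
    rw [← a1, ← a1, ← Finset.sum_sub_distrib]
    refine Finset.sum_congr rfl fun y _ => ?_
    rw [Complex.ofReal_sub, sub_mul]
  have e2 : ∑ y : G, ((if y ∈ X \ Z then (1 : ℝ) else 0) - (if y ∈ Z \ X then (1 : ℝ) else 0)) ^ 2
      = (X \ Z).card + (Z \ X).card := by
    have a : ∀ y : G, ((if y ∈ X \ Z then (1 : ℝ) else 0) - (if y ∈ Z \ X then (1 : ℝ) else 0)) ^ 2
        = (if y ∈ X \ Z then (1 : ℝ) else 0) + (if y ∈ Z \ X then (1 : ℝ) else 0) := by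
      intro y
      by_cases h1 : y ∈ X <;> by_cases h2 : y ∈ Z <;> simp [h1, h2]
    rw [Finset.sum_congr rfl fun y _ => a y, Finset.sum_add_distrib]
    simp only [Finset.sum_boole, Finset.filter_mem_eq_inter, Finset.univ_inter]
  have e3 : (Z \ X).card = (X \ Z).card := by
    have h1 := Finset.card_sdiff_add_card_inter Z X
    have h2 := Finset.card_sdiff_add_card_inter X Z
    rw [Finset.inter_comm] at h2
    omega
  rw [Finset.sum_congr rfl fun χ _ => e1 χ, e2, e3] at h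
  rw [h]
  unfold F_rho
  rw [← hX]
  ring

/-- Module F (Fourier.lean) -/
theorem exists_char (B : Finset G) (h0 : (0 : G) ∈ B) (j s₀ Δ : ℕ)
    (hΔ : (sm (j + 1) B).card ≤ (sm j B).card + Δ)
    (hZ : 2 * (sm j B).card ≤ Fintype.card G)
    (h : 32 * s₀ * Δ * (sm (2 * s₀) B).card < (sm j B).card * (sm s₀ B).card) :
    ∃ χ : AddChar G ℂ, χ ≠ 1 ∧ ∀ b ∈ B, ∀ s ≤ s₀, ‖χ (s • b) - 1‖ < 1 := by
  set Z := sm j B with hZdef
  set T := sm (2 * s₀) B with hT
  have hBne : B.Nonempty := ⟨0, h0⟩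
  have hZpos : 0 < Z.card := Finset.card_pos.mpr (sm_nonempty hBne j)
  have hrhoB : ∀ b ∈ B, F_rho Z b ≤ Δ := by
    intro b hb
    have hsub : Z.image (fun z => b + z) \ Z ⊆ sm (j + 1) B \ Z := by
      apply Finset.sdiff_subset_sdiff _ (Finset.Subset.refl _)
      intro w hw
      rw [Finset.mem_image] at hw
      obtain ⟨z, hz, rfl⟩ := hw
      rw [sm_succ, Finset.mem_add]
      exact ⟨z, hz, b, hb, by abel⟩
    have h1 := Finset.card_le_card hsub
    have h2 : (sm (j + 1) B \ Z).card + Z.card = (sm (j + 1) B).card :=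
      Finset.card_sdiff_add_card_eq_card (F_sm_mono h0 (Nat.le_succ j))
    unfold F_rho
    omega
  have hrhoT : ∀ x ∈ T, F_rho Z x ≤ 2 * s₀ * Δ := F_rho_sm hrhoB (2 * s₀)
  -- the energy
  set E : AddChar G ℂ → ℝ := fun χ => ∑ x ∈ T, ‖χ x - 1‖ ^ 2 with hE
  have hEsum : ∑ χ : AddChar G ℂ, E χ * ‖F_S Z χ‖ ^ 2
      ≤ T.card * (2 * Fintype.card G * (2 * s₀ * Δ)) := by
    have e1 : ∑ χ : AddChar G ℂ, E χ * ‖F_S Z χ‖ ^ 2
        = ∑ x ∈ T, ∑ χ : AddChar G ℂ, ‖χ x - 1‖ ^ 2 * ‖F_S Z χ‖ ^ 2 := by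
      rw [Finset.sum_comm]
      refine Finset.sum_congr rfl fun χ _ => ?_
      rw [hE]; simp only; rw [Finset.sum_mul]
    rw [e1]
    calc ∑ x ∈ T, ∑ χ : AddChar G ℂ, ‖χ x - 1‖ ^ 2 * ‖F_S Z χ‖ ^ 2
        ≤ ∑ x ∈ T, (2 * Fintype.card G * (2 * s₀ * Δ) : ℝ) := by
          refine Finset.sum_le_sum fun x hx => ?_
          rw [F_sum_shift]
          have : (F_rho Z x : ℝ) ≤ 2 * s₀ * Δ := by exact_mod_cast hrhoT x hx
          have hg : (0 : ℝ) ≤ 2 * Fintype.card G := by positivity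
          exact mul_le_mul_of_nonneg_left this hg
      _ = T.card * (2 * Fintype.card G * (2 * s₀ * Δ)) := by
          rw [Finset.sum_const, nsmul_eq_mul]
  have hS1 : ‖F_S Z (1 : AddChar G ℂ)‖ ^ 2 = (Z.card : ℝ) ^ 2 := by
    unfold F_S
    simp
  have hSsum : ∑ χ ∈ univ.erase (1 : AddChar G ℂ), ‖F_S Z χ‖ ^ 2
      = Fintype.card G * Z.card - (Z.card : ℝ) ^ 2 := by
    rw [← F_sum_S, ← hS1, ← Finset.add_sum_erase univ (fun χ => ‖F_S Z χ‖ ^ 2)
      (Finset.mem_univ (1 : AddChar G ℂ))]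
    ring
  have hE1 : 0 ≤ E 1 * ‖F_S Z (1 : AddChar G ℂ)‖ ^ 2 := by positivity
  have hEsum' : ∑ χ ∈ univ.erase (1 : AddChar G ℂ), E χ * ‖F_S Z χ‖ ^ 2
      ≤ T.card * (2 * Fintype.card G * (2 * s₀ * Δ)) := by
    have := Finset.add_sum_erase univ (fun χ => E χ * ‖F_S Z χ‖ ^ 2)
      (Finset.mem_univ (1 : AddChar G ℂ))
    linarith
  -- choice of the character
  obtain ⟨χ, hχ1, hχ⟩ : ∃ χ : AddChar G ℂ, χ ≠ 1 ∧ E χ * Z.card ≤ 8 * s₀ * Δ * T.card := by
    by_contra hcon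
    push Not at hcon
    have hz : (0 : ℝ) < Z.card := by exact_mod_cast hZpos
    have hz2 : (2 : ℝ) * Z.card ≤ Fintype.card G := by exact_mod_cast hZ
    have hSpos : (Z.card : ℝ) * (Fintype.card G / 2) ≤
        ∑ χ ∈ univ.erase (1 : AddChar G ℂ), ‖F_S Z χ‖ ^ 2 := by
      rw [hSsum]; nlinarith
    have hlt : 8 * s₀ * Δ * T.card * ∑ χ ∈ univ.erase (1 : AddChar G ℂ), ‖F_S Z χ‖ ^ 2
        < ∑ χ ∈ univ.erase (1 : AddChar G ℂ), E χ * Z.card * ‖F_S Z χ‖ ^ 2 := by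
      rw [Finset.mul_sum]
      have hex : ∃ χ ∈ univ.erase (1 : AddChar G ℂ), 0 < ‖F_S Z χ‖ ^ 2 := by
        by_contra hno
        push Not at hno
        have : ∑ χ ∈ univ.erase (1 : AddChar G ℂ), ‖F_S Z χ‖ ^ 2 ≤ 0 :=
          Finset.sum_nonpos hno
        have hgpos : 0 < (Fintype.card G : ℝ) := by linarith
        nlinarith [mul_pos hz (half_pos hgpos)]
      obtain ⟨χ₀, hχ₀, hpos⟩ := hex
      refine Finset.sum_lt_sum (fun χ hχ => ?_) ⟨χ₀, hχ₀, ?_⟩
      · exact mul_le_mul_of_nonneg_right (hcon χ (Finset.ne_of_mem_erase hχ)).le (by positivity)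
      · exact mul_lt_mul_of_pos_right (hcon χ₀ (Finset.ne_of_mem_erase hχ₀)) hpos
    have e : ∑ χ ∈ univ.erase (1 : AddChar G ℂ), E χ * Z.card * ‖F_S Z χ‖ ^ 2
        = Z.card * ∑ χ ∈ univ.erase (1 : AddChar G ℂ), E χ * ‖F_S Z χ‖ ^ 2 := by
      rw [Finset.mul_sum]
      exact Finset.sum_congr rfl fun χ _ => by ring
    rw [e] at hlt
    have h1 := mul_le_mul_of_nonneg_left hEsum' hz.le
    have h2 : 8 * s₀ * Δ * T.card * ((Z.card : ℝ) * (Fintype.card G / 2))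
        ≤ 8 * s₀ * Δ * T.card * ∑ χ ∈ univ.erase (1 : AddChar G ℂ), ‖F_S Z χ‖ ^ 2 :=
      mul_le_mul_of_nonneg_left hSpos (by positivity)
    nlinarith
  refine ⟨χ, hχ1, fun b hb s hs => ?_⟩
  -- final estimate
  have hT1 : (sm s₀ B).card * ‖χ (s • b) - 1‖ ^ 2 ≤ 4 * E χ := by
    have hmem1 : ∀ x ∈ sm s₀ B, x ∈ T := fun x hx => F_sm_mono h0 (by omega) hx
    have hmem2 : ∀ x ∈ sm s₀ B, x + s • b ∈ T := by
      intro x hx
      rw [hT, two_mul, sm_add, Finset.mem_add]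
      exact ⟨x, hx, s • b, F_sm_mono h0 hs (F_nsmul_mem hb s), rfl⟩
    have hpt : ∀ x ∈ sm s₀ B, ‖χ (s • b) - 1‖ ^ 2
        ≤ 2 * ‖χ (x + s • b) - 1‖ ^ 2 + 2 * ‖χ x - 1‖ ^ 2 := by
      intro x _
      have e : χ (x + s • b) - χ x = χ x * (χ (s • b) - 1) := by
        rw [AddChar.map_add_eq_mul]; ring
      have hn : ‖χ (s • b) - 1‖ = ‖χ (x + s • b) - χ x‖ := by
        rw [e, norm_mul, AddChar.norm_apply, one_mul]
      have htri : ‖χ (x + s • b) - χ x‖ ≤ ‖χ (x + s • b) - 1‖ + ‖χ x - 1‖ := by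
        have : χ (x + s • b) - χ x = (χ (x + s • b) - 1) - (χ x - 1) := by ring
        rw [this]; exact norm_sub_le _ _
      rw [hn]
      have h3 := norm_nonneg (χ (x + s • b) - χ x)
      nlinarith [sq_nonneg (‖χ (x + s • b) - 1‖ - ‖χ x - 1‖), norm_nonneg (χ (x + s • b) - 1),
        norm_nonneg (χ x - 1), mul_self_le_mul_self h3 htri]
    calc (sm s₀ B).card * ‖χ (s • b) - 1‖ ^ 2 = ∑ x ∈ sm s₀ B, ‖χ (s • b) - 1‖ ^ 2 := by
          rw [Finset.sum_const, nsmul_eq_mul]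
      _ ≤ ∑ x ∈ sm s₀ B, (2 * ‖χ (x + s • b) - 1‖ ^ 2 + 2 * ‖χ x - 1‖ ^ 2) :=
          Finset.sum_le_sum hpt
      _ = 2 * ∑ x ∈ sm s₀ B, ‖χ (x + s • b) - 1‖ ^ 2 + 2 * ∑ x ∈ sm s₀ B, ‖χ x - 1‖ ^ 2 := by
          rw [Finset.sum_add_distrib, Finset.mul_sum, Finset.mul_sum]
      _ ≤ 2 * E χ + 2 * E χ := by
          have a1 : ∑ x ∈ sm s₀ B, ‖χ (x + s • b) - 1‖ ^ 2 ≤ E χ := by
            have : ∑ x ∈ sm s₀ B, ‖χ (x + s • b) - 1‖ ^ 2
                = ∑ y ∈ (sm s₀ B).image (fun x => x + s • b), ‖χ y - 1‖ ^ 2 := by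
              rw [Finset.sum_image (fun a _ c _ hac => add_left_injective _ hac)]
            rw [this]
            refine Finset.sum_le_sum_of_subset_of_nonneg ?_ (fun _ _ _ => by positivity)
            intro y hy
            rw [Finset.mem_image] at hy
            obtain ⟨x, hx, rfl⟩ := hy
            exact hmem2 x hx
          have a2 : ∑ x ∈ sm s₀ B, ‖χ x - 1‖ ^ 2 ≤ E χ :=
            Finset.sum_le_sum_of_subset_of_nonneg hmem1 (fun _ _ _ => by positivity)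
          linarith
      _ = 4 * E χ := by ring
  have hz : (0 : ℝ) < Z.card := by exact_mod_cast hZpos
  have hT1pos : (0 : ℝ) < (sm s₀ B).card := by
    exact_mod_cast Finset.card_pos.mpr (sm_nonempty hBne s₀)
  have hreal : (32 : ℝ) * s₀ * Δ * T.card < Z.card * (sm s₀ B).card := by exact_mod_cast h
  have hfin : ‖χ (s • b) - 1‖ ^ 2 * (Z.card * (sm s₀ B).card) < 1 * (Z.card * (sm s₀ B).card) := by
    have h1 := mul_le_mul_of_nonneg_right hT1 hz.le
    nlinarith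
  have hlt1 : ‖χ (s • b) - 1‖ ^ 2 < 1 := lt_of_mul_lt_mul_right hfin (by positivity)
  have hnn := norm_nonneg (χ (s • b) - 1)
  nlinarith

end Pool.Agent.H500R2.EO
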