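import Pool.Agent.H500R2.EO.Defs

/-!
# The L-shape bound

Minimal representatives of the values `x • e₁ + y • e₂` form an order ideal of `ℕ × ℕ` whose
complement has at most one inner corner.
-/

namespace Pool.Agent.H500R2.EO

open Finset

/-- the key used to order `ℕ × ℕ` -/
def L1_key (p : ℕ × ℕ) : ℕ ×ₗ ℕ := toLex (p.1 + p.2, p.1)

theorem L1_key_lt {p q : ℕ × ℕ} :
    L1_key p < L1_key q ↔ p.1 + p.2 < q.1 + q.2 ∨ p.1 + p.2 = q.1 + q.2 ∧ p.1 < q.1 := by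
  unfold L1_key
  rw [Prod.Lex.toLex_lt_toLex]

theorem L1_key_inj {p q : ℕ × ℕ} (h : L1_key p = L1_key q) : p = q := by
  unfold L1_key at h
  have h1 := toLex.injective h
  simp only [Prod.mk.injEq] at h1
  exact Prod.ext h1.2 (by omega)

section
variable {Γ : Type*} [AddCommGroup Γ] (e₁ e₂ : Γ)

/-- the value of a pair -/
def L1_val (p : ℕ × ℕ) : Γ := p.1 • e₁ + p.2 • e₂

/-- minimal representatives -/
def L1_Y (p : ℕ × ℕ) : Prop := ∀ p', L1_val e₁ e₂ p' = L1_val e₁ e₂ p → ¬ L1_key p' < L1_key p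

theorem L1_exists_min (p : ℕ × ℕ) :
    ∃ c, L1_val e₁ e₂ c = L1_val e₁ e₂ p ∧ L1_Y e₁ e₂ c := by
  have hwf : WellFounded (fun a b : ℕ × ℕ => L1_key a < L1_key b) :=
    InvImage.wf L1_key wellFounded_lt
  obtain ⟨c, hc, hmin⟩ := hwf.has_min {c | L1_val e₁ e₂ c = L1_val e₁ e₂ p} ⟨p, rfl⟩
  refine ⟨c, hc, fun p' hp' => hmin p' ?_⟩
  exact hp'.trans hc

theorem L1_unique {p q : ℕ × ℕ} (hp : L1_Y e₁ e₂ p) (hq : L1_Y e₁ e₂ q)
    (h : L1_val e₁ e₂ p = L1_val e₁ e₂ q) : p = q := by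
  rcases lt_trichotomy (L1_key p) (L1_key q) with h1 | h1 | h1
  · exact absurd h1 (hq p h)
  · exact L1_key_inj h1
  · exact absurd h1 (hp q h.symm)

theorem L1_down {p q : ℕ × ℕ} (hp : L1_Y e₁ e₂ p) (h1 : q.1 ≤ p.1) (h2 : q.2 ≤ p.2) :
    L1_Y e₁ e₂ q := by
  intro c hc hlt
  refine hp (c.1 + (p.1 - q.1), c.2 + (p.2 - q.2)) ?_ ?_
  · unfold L1_val at hc ⊢
    simp only [add_nsmul]
    have e1 : p.1 • e₁ = q.1 • e₁ + (p.1 - q.1) • e₁ := by
      rw [← add_nsmul]; congr 1; omega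
    have e2 : p.2 • e₂ = q.2 • e₂ + (p.2 - q.2) • e₂ := by
      rw [← add_nsmul]; congr 1; omega
    rw [e1, e2]
    calc c.1 • e₁ + (p.1 - q.1) • e₁ + (c.2 • e₂ + (p.2 - q.2) • e₂)
        = (c.1 • e₁ + c.2 • e₂) + ((p.1 - q.1) • e₁ + (p.2 - q.2) • e₂) := by abel
      _ = (q.1 • e₁ + q.2 • e₂) + ((p.1 - q.1) • e₁ + (p.2 - q.2) • e₂) := by rw [hc]
      _ = _ := by abel
  · rw [L1_key_lt] at hlt ⊢
    simp only []
    omega

theorem L1_corner {a b : ℕ} (hn : ¬ L1_Y e₁ e₂ (a + 1, b + 1)) (h1 : L1_Y e₁ e₂ (a, b + 1))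
    (h2 : L1_Y e₁ e₂ (a + 1, b)) : L1_val e₁ e₂ (a + 1, b + 1) = 0 := by
  obtain ⟨c, hc, hY⟩ := L1_exists_min e₁ e₂ (a + 1, b + 1)
  have hlt : L1_key c < L1_key (a + 1, b + 1) := by
    rcases lt_trichotomy (L1_key c) (L1_key (a + 1, b + 1)) with h | h | h
    · exact h
    · rw [L1_key_inj h] at hY; exact absurd hY hn
    · exact absurd h (hY _ hc.symm)
  rw [L1_key_lt] at hlt
  simp only [] at hlt
  obtain ⟨x, y⟩ := c
  simp only [] at hlt
  have hx : x = 0 := by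
    rcases Nat.eq_zero_or_pos x with hx | hx
    · exact hx
    · exfalso
      obtain ⟨x', rfl⟩ : ∃ x', x = x' + 1 := ⟨x - 1, by omega⟩
      refine h1 (x', y) ?_ ?_
      · unfold L1_val at hc ⊢
        simp only [succ_nsmul] at hc ⊢
        have : x' • e₁ + y • e₂ + e₁ = a • e₁ + (b • e₂ + e₂) + e₁ := by
          calc x' • e₁ + y • e₂ + e₁ = x' • e₁ + e₁ + y • e₂ := by abel
            _ = a • e₁ + e₁ + (b • e₂ + e₂) := hc
            _ = _ := by abel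
        exact add_right_cancel this
      · rw [L1_key_lt]; simp only []; omega
  have hy : y = 0 := by
    rcases Nat.eq_zero_or_pos y with hy | hy
    · exact hy
    · exfalso
      obtain ⟨y', rfl⟩ : ∃ y', y = y' + 1 := ⟨y - 1, by omega⟩
      refine h2 (x, y') ?_ ?_
      · unfold L1_val at hc ⊢
        simp only [succ_nsmul] at hc ⊢
        have : x • e₁ + y' • e₂ + e₂ = a • e₁ + e₁ + b • e₂ + e₂ := by
          calc x • e₁ + y' • e₂ + e₂ = x • e₁ + (y' • e₂ + e₂) := by abel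
            _ = a • e₁ + e₁ + (b • e₂ + e₂) := hc
            _ = _ := by abel
        exact add_right_cancel this
      · rw [L1_key_lt]; simp only []; omega
  rw [← hc, hx, hy]
  simp [L1_val]

theorem L1_zero : L1_Y e₁ e₂ (0, 0) := by
  intro c _ hlt
  rw [L1_key_lt] at hlt
  simp only [] at hlt
  omega

end

theorem L1_arith (l h p q N y : ℕ) (hp : p ≤ l) (hq : q ≤ h) (h1 : p + h ≤ N) (h2 : q + l ≤ N)
    (hy : y + (l - p) * (h - q) ≤ l * h) : 3 * y ≤ N ^ 2 := by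
  have hp' : (p : ℤ) ≤ l := by exact_mod_cast hp
  have hq' : (q : ℤ) ≤ h := by exact_mod_cast hq
  zify [hp, hq] at h1 h2 hy ⊢
  obtain ⟨a, ha⟩ : ∃ a : ℤ, a = l - p := ⟨_, rfl⟩
  obtain ⟨b, hb⟩ : ∃ b : ℤ, b = h - q := ⟨_, rfl⟩
  rw [← ha, ← hb] at hy
  have ha0 : 0 ≤ a := by linarith
  have hb0 : 0 ≤ b := by linarith
  obtain ⟨X, hX⟩ : ∃ X : ℤ, X = l + h - N := ⟨_, rfl⟩
  have haX : X ≤ a := by linarith
  have hbX : X ≤ b := by linarith
  have hl : (0 : ℤ) ≤ l := by positivity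
  have hh : (0 : ℤ) ≤ h := by positivity
  have hlh : 4 * ((l : ℤ) * h) ≤ (l + h) ^ 2 := by nlinarith [sq_nonneg ((l : ℤ) - h)]
  rcases le_total X 0 with hX0 | hX0
  · have h5 : 0 ≤ a * b := mul_nonneg ha0 hb0
    have h6 : ((l : ℤ) + h) ^ 2 ≤ N ^ 2 := by
      apply pow_le_pow_left₀ (by positivity); linarith
    nlinarith
  · have h5 : X * X ≤ a * b := mul_le_mul haX hbX hX0 ha0
    have h6 : ((l : ℤ) + h) = N + X := by linarith
    rw [h6] at hlh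
    nlinarith [sq_nonneg ((N : ℤ) - 3 * X)]

/-- the L-shape bound -/
theorem lshape {Γ : Type*} [AddCommGroup Γ] [DecidableEq Γ] (e₁ e₂ : Γ) (R : ℕ)
    (hR : ∀ x y : ℕ, ∃ x' y' : ℕ, x' + y' ≤ R ∧ x' • e₁ + y' • e₂ = x • e₁ + y • e₂)
    (V : Finset Γ) (hV : ∀ v ∈ V, ∃ x y : ℕ, v = x • e₁ + y • e₂) :
    3 * V.card ≤ (R + 2) ^ 2 := by
  classical
  -- bound for minimal representatives
  have hbd : ∀ p, L1_Y e₁ e₂ p → p.1 + p.2 ≤ R := by
    intro p hp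
    by_contra hcon
    obtain ⟨x', y', h1, h2⟩ := hR p.1 p.2
    exact hp (x', y') h2 (by rw [L1_key_lt]; simp only []; omega)
  obtain ⟨Y, hY⟩ : ∃ Y : Finset (ℕ × ℕ), ∀ p, p ∈ Y ↔ L1_Y e₁ e₂ p := by
    refine ⟨(range (R + 1) ×ˢ range (R + 1)).filter (fun p => L1_Y e₁ e₂ p), fun p => ?_⟩
    rw [mem_filter, mem_product, mem_range, mem_range]
    constructor
    · rintro ⟨_, h⟩; exact h
    · intro h
      have := hbd p h
      exact ⟨⟨by omega, by omega⟩, h⟩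
  have hVY : V.card ≤ Y.card := by
    have hex : ∀ v : Γ, ∃ c : ℕ × ℕ, v ∈ V → L1_val e₁ e₂ c = v ∧ L1_Y e₁ e₂ c := by
      intro v
      by_cases hv : v ∈ V
      · obtain ⟨x, y, hxy⟩ := hV v hv
        obtain ⟨c, hc1, hc2⟩ := L1_exists_min e₁ e₂ (x, y)
        exact ⟨c, fun _ => ⟨hc1.trans hxy.symm, hc2⟩⟩
      · exact ⟨(0, 0), fun h => absurd h hv⟩
    choose g hg using hex
    refine card_le_card_of_injOn g (fun v hv => (hY _).2 (hg v hv).2) ?_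
    intro v hv w hw hvw
    rw [← (hg v hv).1, ← (hg w hw).1, hvw]
  -- the parameters
  have hl0 : ∃ x, ¬ L1_Y e₁ e₂ (x, 0) := ⟨R + 1, fun h => by have := hbd _ h; simp only [] at this; omega⟩
  have hh0 : ∃ y, ¬ L1_Y e₁ e₂ (0, y) := ⟨R + 1, fun h => by have := hbd _ h; simp only [] at this; omega⟩
  obtain ⟨l, hl, hlmin⟩ : ∃ l, ¬ L1_Y e₁ e₂ (l, 0) ∧ ∀ x < l, L1_Y e₁ e₂ (x, 0) :=
    ⟨Nat.find hl0, Nat.find_spec hl0, fun x hx => not_not.1 (Nat.find_min hl0 hx)⟩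
  obtain ⟨h, hh, hhmin⟩ : ∃ h, ¬ L1_Y e₁ e₂ (0, h) ∧ ∀ y < h, L1_Y e₁ e₂ (0, y) :=
    ⟨Nat.find hh0, Nat.find_spec hh0, fun x hx => not_not.1 (Nat.find_min hh0 hx)⟩
  have hlpos : 1 ≤ l := by
    rcases Nat.eq_zero_or_pos l with h1 | h1
    · rw [h1] at hl; exact absurd (L1_zero e₁ e₂) hl
    · exact h1
  have hhpos : 1 ≤ h := by
    rcases Nat.eq_zero_or_pos h with h1 | h1
    · rw [h1] at hh; exact absurd (L1_zero e₁ e₂) hh
    · exact h1
  have hYl : ∀ x y, L1_Y e₁ e₂ (x, y) → x < l := by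
    intro x y hxy
    by_contra hcon
    exact hl (L1_down e₁ e₂ hxy (by simp only []; omega) (by simp only []; omega))
  have hYh : ∀ x y, L1_Y e₁ e₂ (x, y) → y < h := by
    intro x y hxy
    by_contra hcon
    exact hh (L1_down e₁ e₂ hxy (by simp only []; omega) (by simp only []; omega))
  have hp0 : ∃ x, ¬ L1_Y e₁ e₂ (x, h - 1) := ⟨l, fun h1 => lt_irrefl _ (hYl _ _ h1)⟩
  have hq0 : ∃ y, ¬ L1_Y e₁ e₂ (l - 1, y) := ⟨h, fun h1 => lt_irrefl _ (hYh _ _ h1)⟩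
  obtain ⟨p, hp, hpmin, hpl⟩ : ∃ p, ¬ L1_Y e₁ e₂ (p, h - 1) ∧
      (∀ x < p, L1_Y e₁ e₂ (x, h - 1)) ∧ p ≤ l :=
    ⟨Nat.find hp0, Nat.find_spec hp0, fun x hx => not_not.1 (Nat.find_min hp0 hx),
      Nat.find_min' hp0 (fun h1 => lt_irrefl _ (hYl _ _ h1))⟩
  obtain ⟨q, hq, hqmin, hqh⟩ : ∃ q, ¬ L1_Y e₁ e₂ (l - 1, q) ∧
      (∀ y < q, L1_Y e₁ e₂ (l - 1, y)) ∧ q ≤ h :=
    ⟨Nat.find hq0, Nat.find_spec hq0, fun x hx => not_not.1 (Nat.find_min hq0 hx),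
      Nat.find_min' hq0 (fun h1 => lt_irrefl _ (hYh _ _ h1))⟩
  have hppos : 1 ≤ p := by
    rcases Nat.eq_zero_or_pos p with h1 | h1
    · rw [h1] at hp; exact absurd (hhmin (h - 1) (by omega)) hp
    · exact h1
  have hqpos : 1 ≤ q := by
    rcases Nat.eq_zero_or_pos q with h1 | h1
    · rw [h1] at hq; exact absurd (hlmin (l - 1) (by omega)) hq
    · exact h1
  have hsum1 : p + h ≤ R + 2 := by
    have := hbd _ (hpmin (p - 1) (by omega))
    simp only [] at this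
    omega
  have hsum2 : q + l ≤ R + 2 := by
    have := hbd _ (hqmin (q - 1) (by omega))
    simp only [] at this
    omega
  -- no element in the upper right rectangle
  have hno : ∀ x y, L1_Y e₁ e₂ (x, y) → p ≤ x → q ≤ y → False := by
    intro x y hxy hpx hqy
    have hy0 : ∃ y, ¬ L1_Y e₁ e₂ (p, y) := ⟨h - 1, hp⟩
    have hx0 : ∃ x, ¬ L1_Y e₁ e₂ (x, q) := ⟨l - 1, hq⟩
    obtain ⟨y1, hy1, hy1min, hy1h⟩ : ∃ y1, ¬ L1_Y e₁ e₂ (p, y1) ∧
        (∀ y < y1, L1_Y e₁ e₂ (p, y)) ∧ y1 ≤ h - 1 :=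
      ⟨Nat.find hy0, Nat.find_spec hy0, fun x hx => not_not.1 (Nat.find_min hy0 hx),
        Nat.find_min' hy0 hp⟩
    obtain ⟨x2, hx2, hx2min, hx2l⟩ : ∃ x2, ¬ L1_Y e₁ e₂ (x2, q) ∧
        (∀ x < x2, L1_Y e₁ e₂ (x, q)) ∧ x2 ≤ l - 1 :=
      ⟨Nat.find hx0, Nat.find_spec hx0, fun x hx => not_not.1 (Nat.find_min hx0 hx),
        Nat.find_min' hx0 hq⟩
    have hy1y : y < y1 := by
      by_contra hcon
      exact hy1 (L1_down e₁ e₂ hxy (by simpa using hpx) (by simp only []; omega))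
    have hx2x : x < x2 := by
      by_contra hcon
      exact hx2 (L1_down e₁ e₂ hxy (by simp only []; omega) (by simpa using hqy))
    obtain ⟨p', rfl⟩ : ∃ p', p = p' + 1 := ⟨p - 1, by omega⟩
    obtain ⟨q', rfl⟩ : ∃ q', q = q' + 1 := ⟨q - 1, by omega⟩
    obtain ⟨y', rfl⟩ : ∃ y', y1 = y' + 1 := ⟨y1 - 1, by omega⟩
    obtain ⟨x', rfl⟩ : ∃ x', x2 = x' + 1 := ⟨x2 - 1, by omega⟩
    have c1 := L1_corner e₁ e₂ hy1
      (L1_down e₁ e₂ (hpmin p' (by omega)) (by simp only []; omega) (by simp only []; omega))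
      (hy1min y' (by omega))
    have c2 := L1_corner e₁ e₂ hx2 (hx2min x' (by omega))
      (L1_down e₁ e₂ (hqmin q' (by omega)) (by simp only []; omega) (by simp only []; omega))
    have hA : L1_Y e₁ e₂ (x' + 1 - (p' + 1), 0) := hlmin _ (by omega)
    have hB : L1_Y e₁ e₂ (0, y' + 1 - (q' + 1)) := hhmin _ (by omega)
    have hval : L1_val e₁ e₂ (x' + 1 - (p' + 1), 0) = L1_val e₁ e₂ (0, y' + 1 - (q' + 1)) := by
      unfold L1_val at c1 c2 ⊢
      simp only [zero_nsmul, add_zero, zero_add] at c1 c2 ⊢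
      have e1 : (x' + 1) • e₁ = (p' + 1) • e₁ + (x' + 1 - (p' + 1)) • e₁ := by
        rw [← add_nsmul]; congr 1; omega
      have e2 : (y' + 1) • e₂ = (q' + 1) • e₂ + (y' + 1 - (q' + 1)) • e₂ := by
        rw [← add_nsmul]; congr 1; omega
      rw [e2] at c1
      rw [e1] at c2
      have c3 := c1.trans c2.symm
      have c4 : (p' + 1) • e₁ + (q' + 1) • e₂ + (y' + 1 - (q' + 1)) • e₂ =
          (p' + 1) • e₁ + (q' + 1) • e₂ + (x' + 1 - (p' + 1)) • e₁ := by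
        calc _ = (p' + 1) • e₁ + ((q' + 1) • e₂ + (y' + 1 - (q' + 1)) • e₂) := by abel
          _ = (p' + 1) • e₁ + (x' + 1 - (p' + 1)) • e₁ + (q' + 1) • e₂ := c3
          _ = _ := by abel
      exact (add_left_cancel c4).symm
    have := L1_unique e₁ e₂ hA hB hval
    have := congrArg Prod.fst this
    simp only [] at this
    omega
  -- counting
  have hcount : Y.card + (l - p) * (h - q) ≤ l * h := by
    have hdisj : Disjoint Y (Ico p l ×ˢ Ico q h) := by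
      rw [disjoint_left]
      rintro ⟨x, y⟩ hxy hxy2
      rw [mem_product, mem_Ico, mem_Ico] at hxy2
      exact hno x y ((hY _).1 hxy) hxy2.1.1 hxy2.2.1
    have hsub : Y ∪ (Ico p l ×ˢ Ico q h) ⊆ range l ×ˢ range h := by
      rintro ⟨x, y⟩ hxy
      rw [mem_union] at hxy
      rw [mem_product, mem_range, mem_range]
      rcases hxy with hxy | hxy
      · exact ⟨hYl x y ((hY _).1 hxy), hYh x y ((hY _).1 hxy)⟩
      · rw [mem_product, mem_Ico, mem_Ico] at hxy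
        exact ⟨hxy.1.2, hxy.2.2⟩
    have := card_le_card hsub
    rw [card_union_of_disjoint hdisj, card_product, card_product, Nat.card_Ico, Nat.card_Ico,
      card_range, card_range] at this
    exact this
  have := L1_arith l h p q (R + 2) Y.card hpl hqh hsum1 hsum2 hcount
  omega

end Pool.Agent.H500R2.EO
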