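import Pool.Agent.H500R2.EO.Defs
import Pool.Agent.H500R2.EO.LShape

open Finset
open scoped Pointwise

namespace Pool.Agent.H500R2.EO


theorem hull_bound (ν L r : ℕ) (hL : 0 < L) (hν : 0 < ν) (α : ℤ)
    (hcov : ∀ v : ℤ, ∃ j i : ℕ, j ≤ r ∧ i ≤ j * L ∧ (ν : ℤ) ∣ v - (j * α + i)) :
    3 * ν ≤ L * (r + 2) ^ 2 := by
  classical
  set e₁ : ZMod L × ZMod (ν * L) := (1, ((α : ℤ) : ZMod (ν * L))) with he₁
  set e₂ : ZMod L × ZMod (ν * L) := (1, ((α + L : ℤ) : ZMod (ν * L))) with he₂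
  have hval : ∀ x y : ℕ, x • e₁ + y • e₂ = ((((x + y : ℕ) : ℤ) : ZMod L),
      ((((x + y : ℕ) : ℤ) * α + y * L : ℤ) : ZMod (ν * L))) := by
    intro x y
    refine Prod.ext ?_ ?_
    · simp [he₁, he₂]
    · rw [he₁, he₂, Prod.snd_add, Prod.smul_snd, Prod.smul_snd, nsmul_eq_mul, nsmul_eq_mul]
      push_cast
      ring
  have heq : ∀ x y x' y' : ℕ, (L : ℤ) ∣ ((x' + y' : ℕ) : ℤ) - ((x + y : ℕ) : ℤ) →
      ((ν * L : ℕ) : ℤ) ∣ (((x' + y' : ℕ) : ℤ) * α + y' * L) - (((x + y : ℕ) : ℤ) * α + y * L) →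
      x • e₁ + y • e₂ = x' • e₁ + y' • e₂ := by
    intro x y x' y' h1 h2
    rw [hval, hval]
    refine Prod.ext ?_ ?_
    · exact (ZMod.intCast_eq_intCast_iff_dvd_sub _ _ _).mpr h1
    · exact (ZMod.intCast_eq_intCast_iff_dvd_sub _ _ _).mpr h2
  have hR : ∀ x y : ℕ, ∃ x' y' : ℕ, x' + y' ≤ (r + 1) * L - 1 ∧
      x' • e₁ + y' • e₂ = x • e₁ + y • e₂ := by
    intro x y
    obtain ⟨j, i, hj, hi, hd⟩ := hcov (((x + y) / L : ℕ) * α + y)
    have hc : (x + y) % L < L := Nat.mod_lt _ hL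
    have hdm : L * ((x + y) / L) + (x + y) % L = x + y := Nat.div_add_mod _ _
    have hjL : j * L ≤ r * L := Nat.mul_le_mul_right _ hj
    refine ⟨j * L + (x + y) % L - i, i, ?_, ?_⟩
    · have : (r + 1) * L = r * L + L := by ring
      omega
    · have hs : j * L + (x + y) % L - i + i = j * L + (x + y) % L := by omega
      apply heq
      · rw [hs]
        refine ⟨((x + y) / L : ℕ) - j, ?_⟩
        have : ((x + y : ℕ) : ℤ) = L * (((x + y) / L : ℕ) : ℤ) + (((x + y) % L : ℕ) : ℤ) := by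
          exact_mod_cast hdm.symm
        rw [this]
        push_cast
        ring
      · rw [hs]
        obtain ⟨t, ht⟩ := hd
        refine ⟨t, ?_⟩
        have : ((x + y : ℕ) : ℤ) = L * (((x + y) / L : ℕ) : ℤ) + (((x + y) % L : ℕ) : ℤ) := by
          exact_mod_cast hdm.symm
        rw [this]
        push_cast at ht ⊢
        linear_combination (L : ℤ) * ht
  set F : ℕ × ℕ → ZMod L × ZMod (ν * L) := fun p =>
    (p.1 + L * ν - p.2) • e₁ + p.2 • e₂ with hF
  have hinj : Set.InjOn F ((range L ×ˢ range ν : Finset (ℕ × ℕ)) : Set (ℕ × ℕ)) := by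
    rintro ⟨c, y⟩ h1 ⟨c', y'⟩ h2 h12
    simp only [coe_product, coe_range, Set.mem_prod, Set.mem_Iio] at h1 h2
    have hνL : ν ≤ L * ν := Nat.le_mul_of_pos_left ν hL
    simp only [hF] at h12
    rw [hval, hval] at h12
    have e1 : c + L * ν - y + y = c + L * ν := by omega
    have e2 : c' + L * ν - y' + y' = c' + L * ν := by omega
    rw [e1, e2] at h12
    have h3 := congrArg Prod.fst h12
    have h4 := congrArg Prod.snd h12
    simp only at h3 h4
    rw [ZMod.intCast_eq_intCast_iff_dvd_sub] at h3 h4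
    have h5 : (L : ℤ) ∣ (c' : ℤ) - c := by
      have : (((c' + L * ν : ℕ) : ℤ)) - ((c + L * ν : ℕ) : ℤ) = (c' : ℤ) - c := by
        push_cast; ring
      rwa [this] at h3
    have hcc : c' = c := by
      have h6 : (c' : ℤ) - c = 0 := by
        refine Int.eq_zero_of_abs_lt_dvd h5 ?_
        rw [abs_lt]
        constructor <;> omega
      omega
    subst hcc
    have h7 : (L : ℤ) * (ν : ℤ) ∣ (L : ℤ) * ((y' : ℤ) - y) := by
      have e : (((c' + L * ν : ℕ) : ℤ) * α + (y' : ℤ) * L) -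
        (((c' + L * ν : ℕ) : ℤ) * α + (y : ℤ) * L) = (L : ℤ) * ((y' : ℤ) - y) := by ring
      rw [e] at h4
      push_cast at h4
      rwa [mul_comm (ν : ℤ)] at h4
    have h8 : (ν : ℤ) ∣ (y' : ℤ) - y :=
      (mul_dvd_mul_iff_left (by exact_mod_cast hL.ne')).mp h7
    have hyy : y' = y := by
      have h6 : (y' : ℤ) - y = 0 := by
        refine Int.eq_zero_of_abs_lt_dvd h8 ?_
        rw [abs_lt]
        constructor <;> omega
      omega
    rw [hyy]
  have hcard : ((range L ×ˢ range ν).image F).card = L * ν := by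
    rw [card_image_of_injOn hinj]
    simp
  have h := lshape e₁ e₂ ((r + 1) * L - 1) hR ((range L ×ˢ range ν).image F) (by
    intro v hv
    obtain ⟨p, _, rfl⟩ := mem_image.mp hv
    exact ⟨_, _, rfl⟩)
  rw [hcard] at h
  have hle : (r + 1) * L - 1 + 2 ≤ L * (r + 2) := by
    have e1 : (r + 1) * L = r * L + L := by ring
    have e2 : L * (r + 2) = r * L + L + L := by ring
    omega
  have h2 : 3 * (L * ν) ≤ (L * (r + 2)) ^ 2 := h.trans (Nat.pow_le_pow_left hle 2)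
  have h3 : L * (3 * ν) ≤ L * (L * (r + 2) ^ 2) := by
    calc L * (3 * ν) = 3 * (L * ν) := by ring
      _ ≤ (L * (r + 2)) ^ 2 := h2
      _ = L * (L * (r + 2) ^ 2) := by ring
  exact Nat.le_of_mul_le_mul_left h3 hL

end Pool.Agent.H500R2.EO
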