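import Mathlib
import Pool.Agent.H500R2.EO.Defs

/-! Task A2 (helper862): dividing a lifted character by the common divisor of its values. -/

open Finset
open scoped Pointwise

namespace Pool.Agent.H500R2.EO

open Pool.Agent.Helper591.Kneser

section Finite

variable {G : Type} [AddCommGroup G] [Fintype G] [DecidableEq G]

theorem normalise (B : Finset G) (S : ℕ) (f : G → ℤ) (hf0 : f 0 = 0) (hfn : ∃ b ∈ B, f b ≠ 0)
    (hf : ∀ b ∈ B, 6 * S * |f b| < (Fintype.card G : ℤ))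
    (hm : ∀ m : ℤ, ((0 : G), m) ∈ Hs B f → (Fintype.card G : ℤ) ∣ m) :
    ∃ f' : G → ℤ, f' 0 = 0 ∧ (∃ b ∈ B, f' b ≠ 0) ∧
      (∀ b ∈ B, ∀ b' ∈ B, ∀ m : ℤ, m ≠ 0 → ((0 : G), m) ∈ Hs B f' →
        3 * S * |f' b - f' b'| < |m|) ∧
      ∃ x : G, (x, (1 : ℤ)) ∈ Hs B f' := by
  classical
  obtain ⟨e, he⟩ := Int.subgroup_cyclic ((Hs B f).map (AddMonoidHom.snd G ℤ))
  have hmem : ∀ b ∈ B, (b, f b) ∈ Hs B f := fun b hb =>
    AddSubgroup.subset_closure ⟨b, hb, rfl⟩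
  have hdvd : ∀ b ∈ B, e ∣ f b := by
    intro b hb
    have h1 : f b ∈ (Hs B f).map (AddMonoidHom.snd G ℤ) := ⟨(b, f b), hmem b hb, rfl⟩
    rw [he] at h1
    obtain ⟨n, hn⟩ := AddSubgroup.mem_closure_singleton.1 h1
    exact ⟨n, by rw [← hn, smul_eq_mul, mul_comm]⟩
  obtain ⟨b₀, hb₀, hfb₀⟩ := hfn
  have he0 : e ≠ 0 := by
    rintro rfl
    exact hfb₀ (zero_dvd_iff.1 (hdvd b₀ hb₀))
  have hef : ∀ b ∈ B, e * (f b / e) = f b := fun b hb => Int.mul_ediv_cancel' (hdvd b hb)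
  -- the endomorphism `(x, m) ↦ (x, e m)`
  let φ : G × ℤ →+ G × ℤ := (AddMonoidHom.id G).prodMap (AddMonoidHom.mulLeft e)
  have hφ : ∀ x m, φ (x, m) = (x, e * m) := fun x m => rfl
  have h1 : Hs B (fun x => f x / e) ≤ (Hs B f).comap φ := by
    refine (AddSubgroup.closure_le _).2 ?_
    rintro _ ⟨b, hb, rfl⟩
    change φ (b, f b / e) ∈ Hs B f
    rw [hφ, hef b hb]
    exact hmem b hb
  have h2 : Hs B f ≤ (Hs B (fun x => f x / e)).map φ := by
    refine (AddSubgroup.closure_le _).2 ?_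
    rintro _ ⟨b, hb, rfl⟩
    refine ⟨(b, f b / e), AddSubgroup.subset_closure ⟨b, hb, rfl⟩, ?_⟩
    change φ (b, f b / e) = (b, f b)
    rw [hφ, hef b hb]
  have he1 : e ∈ (Hs B f).map (AddMonoidHom.snd G ℤ) := by
    rw [he]
    exact AddSubgroup.subset_closure rfl
  have key : ∀ b ∈ B, ∀ m : ℤ, m ≠ 0 → ((0 : G), m) ∈ Hs B (fun x => f x / e) →
      6 * S * |f b / e| < |m| := by
    intro b hb m hm0 hmB
    have h3 : ((0 : G), e * m) ∈ Hs B f := h1 hmB
    have h4 : (Fintype.card G : ℤ) ∣ e * m := hm _ h3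
    have h5 : (Fintype.card G : ℤ) ≤ |e| * |m| := by
      rw [← abs_mul]
      exact Int.le_of_dvd (abs_pos.2 (mul_ne_zero he0 hm0)) ((dvd_abs _ _).2 h4)
    have h6 := hf b hb
    rw [← hef b hb, abs_mul] at h6
    have h7 : |e| * (6 * S * |f b / e|) < |e| * |m| := by
      calc |e| * (6 * S * |f b / e|) = 6 * S * (|e| * |f b / e|) := by ring
        _ < (Fintype.card G : ℤ) := h6
        _ ≤ |e| * |m| := h5
    exact lt_of_mul_lt_mul_left h7 (abs_nonneg e)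
  refine ⟨fun x => f x / e, by simp [hf0], ⟨b₀, hb₀, ?_⟩, ?_, ?_⟩
  · intro h0
    apply hfb₀
    have := hef b₀ hb₀
    simp only at h0
    rw [h0, mul_zero] at this
    exact this.symm
  · intro b hb b' hb' m hm0 hmB
    have h3 := key b hb m hm0 hmB
    have h4 := key b' hb' m hm0 hmB
    have h5 : |f b / e - f b' / e| ≤ |f b / e| + |f b' / e| := abs_sub _ _
    have hS : (0 : ℤ) ≤ S := Int.natCast_nonneg S
    have h6 : 6 * (S : ℤ) * |f b / e - f b' / e| ≤ 6 * S * (|f b / e| + |f b' / e|) :=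
      mul_le_mul_of_nonneg_left h5 (by positivity)
    change 3 * (S : ℤ) * |f b / e - f b' / e| < |m|
    nlinarith
  · obtain ⟨⟨x, n⟩, hxn, hn⟩ := he1
    obtain ⟨⟨y, k⟩, hyk, hk⟩ := h2 hxn
    refine ⟨y, ?_⟩
    rw [hφ] at hk
    have hn' : n = e := hn
    have h3 : e * k = n := congrArg Prod.snd hk
    have h4 : k = 1 := by
      have h5 : e * k = e * 1 := by rw [h3, hn', mul_one]
      exact mul_left_cancel₀ he0 h5
    rw [h4] at hyk
    exact hyk

end Finite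

end Pool.Agent.H500R2.EO
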