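import Mathlib
import Pool.Agent.H500R2.EO.Defs
import Pool.Agent.H500R2.EO.Growth
import Pool.Agent.H500R2.EO.Aper
import Pool.Agent.H500R2.EO.Fourier
import Pool.Agent.H500R2.EO.Arc
import Pool.Agent.H500R2.EO.Norm
import Pool.Agent.H500R2.EO.Fill
import Pool.Agent.H500R2.EO.Hull

/-! Module P: choice of parameters and proof of the finite theorem. -/

open Finset
open scoped Pointwise

namespace Pool.Agent.H500R2.EO

open Pool.Agent.Helper591.Kneser


theorem P_n1 (q u r g : ℕ) (h1 : q * (u + 1) + 2 ≤ g + q) (hF1 : g ≤ (r + 1) * (u + 1))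
    (hF2 : r ≤ u) : q ≤ r + 1 := by
  by_contra hcon
  push Not at hcon
  have h3 : (r + 2) * u ≤ q * u := Nat.mul_le_mul_right _ hcon
  nlinarith

theorem P_n2 (r k : ℕ) (hcrude : k < r * (r + 2)) (hk : r ^ 2 + 4680011 * r ≤ 3 * k) :
    260000 ≤ r := by
  by_contra hcon
  push Not at hcon
  nlinarith

theorem P_n3 (r k m' : ℕ) (hk3 : r ^ 2 ≤ 3 * k) (hm'2 : k < 4 * r * (m' + 1)) :
    r < 12 * (m' + 1) := by
  have : r * r < r * (12 * (m' + 1)) := by nlinarith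
  exact lt_of_mul_lt_mul_left this (Nat.zero_le r)

theorem P_n4 (r g u : ℕ) (hr : 3 ≤ r) (hF1 : g ≤ (r + 1) * (u + 1)) (hF2 : r ≤ u) :
    g ≤ 2 * r * u := by
  nlinarith

theorem P_n5 (q r g u c : ℕ) (h1 : q * (u + 1) + 1 ≤ c + q) (h2 : g ≤ 2 * r * u) :
    q * g ≤ 2 * r * c := by
  have h2' : q * u ≤ c := by nlinarith
  calc q * g ≤ q * (2 * r * u) := Nat.mul_le_mul_left _ h2
    _ = 2 * r * (q * u) := by ring
    _ ≤ _ := Nat.mul_le_mul_left _ h2'

theorem P_n6 (k s t g u : ℕ) (hs1 : 1 ≤ s) (hs4 : 4 * s ≤ k) (ht2 : k < 2 * s * (t + 1))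
    (h1 : t * (u + 2) + 2 ≤ g + t) : k * (u + 2) ≤ 8 * s * g := by
  have ht3 : 1 ≤ t := by
    by_contra hcon
    have : t = 0 := by omega
    subst this
    omega
  have h3 : t * (u + 2) ≤ 2 * g := by nlinarith
  have h4 : k ≤ 4 * s * t := by nlinarith
  calc k * (u + 2) ≤ 4 * s * t * (u + 2) := Nat.mul_le_mul_right _ h4
    _ = 4 * s * (t * (u + 2)) := by ring
    _ ≤ 4 * s * (2 * g) := Nat.mul_le_mul_left _ h3
    _ = 8 * s * g := by ring

theorem P_n7 (r k m' s' : ℕ) (hk3 : r ^ 2 ≤ 3 * k) (hm'4 : r ≤ 13 * m') (hs'1 : 1 ≤ s')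
    (hs'2 : 260000 * s' ≤ r) : 512 * r ^ 3 * s' < m' ^ 2 * k := by
  have h1 : r ^ 2 ≤ 169 * m' ^ 2 := by nlinarith
  have h2 : r ^ 2 * r ^ 2 ≤ (169 * m' ^ 2) * (3 * k) := Nat.mul_le_mul h1 hk3
  have h3 : 259584 * s' < r := by omega
  have hr : 0 < r := by omega
  have h4 : r ^ 3 * (259584 * s') < r ^ 3 * r := by
    apply Nat.mul_lt_mul_of_pos_left h3
    positivity
  have h5 : r ^ 3 * r = r ^ 2 * r ^ 2 := by ring
  have h6 : (169 * m' ^ 2) * (3 * k) = 507 * (m' ^ 2 * k) := by ring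
  have h7 : r ^ 3 * (259584 * s') = 507 * (512 * r ^ 3 * s') := by ring
  rw [h6] at h2
  rw [h5, h7] at h4
  omega

theorem P_n8 (r s' x : ℕ) (hr : 260000 ≤ r) (hs'3 : r < 260000 * (s' + 1)) (hs'1 : 1 ≤ s')
    (hμ1 : 3 * (r * s') ≤ x) : 2 * (r + 1) ^ 2 ≤ 780000 * x := by
  have h1 : r ≤ 520000 * s' := by omega
  have h2 : r * r ≤ r * (520000 * s') := Nat.mul_le_mul_left _ h1
  have h3 : 780000 * (3 * (r * s')) ≤ 780000 * x := Nat.mul_le_mul_left _ hμ1
  nlinarith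

theorem P_n9 (r k x : ℕ) (hr : 1 ≤ r) (hk : r ^ 2 + 4680011 * r ≤ 3 * k)
    (hμ2 : 3 * x ≤ (r + 2) ^ 2) : 2 * (780000 * r) + x + 1 ≤ k := by
  nlinarith

theorem P_n10 (r k s' : ℕ) (hs'2 : 260000 * s' ≤ r) (hk3 : r ^ 2 ≤ 3 * k) :
    4 * (r * s') ≤ k ∧ s' * r ≤ k := by
  have : r * (260000 * s') ≤ r * r := Nat.mul_le_mul_left _ hs'2
  constructor <;> nlinarith

theorem P_n11 (L ν r : ℕ) (hL0 : 0 < L) (h : 3 * ν ≤ L * (r + 2) ^ 2) :
    3 * (ν / L) ≤ (r + 2) ^ 2 := by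
  have h1 : ν / L * L ≤ ν := Nat.div_mul_le_self ν L
  have h2 : L * (3 * (ν / L)) ≤ L * (r + 2) ^ 2 := by nlinarith
  exact Nat.le_of_mul_le_mul_left h2 hL0

section Finite

variable {G : Type} [AddCommGroup G] [Fintype G] [DecidableEq G]

theorem P_card (B : Finset G) (h0 : (0 : G) ∈ B) (a : G) (r : ℕ)
    (hcov : ∀ x : G, ∃ j ≤ r, ∃ s ∈ sm j B, x = j • a + s) :
    Fintype.card G ≤ (r + 1) * (sm r B).card := by
  classical
  have hsub : (univ : Finset G) ⊆
      (range (r + 1)).biUnion (fun j => (sm r B).image (fun s => j • a + s)) := by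
    intro x _
    obtain ⟨j, hj, s, hs, hx⟩ := hcov x
    rw [mem_biUnion]
    refine ⟨j, mem_range.mpr (by omega), ?_⟩
    rw [mem_image]
    exact ⟨s, sm_mono h0 hj hs, hx.symm⟩
  calc Fintype.card G = (univ : Finset G).card := (card_univ).symm
    _ ≤ _ := card_le_card hsub
    _ ≤ ∑ j ∈ range (r + 1), ((sm r B).image (fun s => j • a + s)).card := card_biUnion_le
    _ ≤ ∑ _j ∈ range (r + 1), (sm r B).card := sum_le_sum (fun j _ => card_image_le)
    _ = (r + 1) * (sm r B).card := by simp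

theorem P_tele (c : ℕ → ℕ) (m : ℕ) (hm : 1 ≤ m) :
    ∃ j, m ≤ j ∧ j < 2 * m ∧ m * c (j + 1) ≤ m * c j + c (2 * m) := by
  by_contra hcon
  push Not at hcon
  have key : ∀ i ≤ m, m * c m + i * c (2 * m) + i ≤ m * c (m + i) := by
    intro i
    induction i with
    | zero => intro _; simp
    | succ i ih =>
      intro hi
      have h1 := ih (by omega)
      have h2 := hcon (m + i) (by omega) (by omega)
      have h3 : m + (i + 1) = m + i + 1 := by ring
      have h4 : (i + 1) * c (2 * m) = i * c (2 * m) + c (2 * m) := by ring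
      rw [h3, h4]
      omega
  have h := key m le_rfl
  rw [← two_mul] at h
  nlinarith

/-- the arithmetic of the Fourier condition -/
theorem P_arith (r m' k s' g Δ cj cs c2 : ℕ) (hr : 1 ≤ r) (hs' : 1 ≤ s') (hm' : 1 ≤ m')
    (hg : 1 ≤ g)
    (h1 : 2 * (r * m') * Δ ≤ g) (h2 : k * c2 ≤ 8 * (r * s') * g) (h3 : m' * g ≤ 2 * r * cj)
    (h4 : s' * g ≤ 2 * r * cs) (h5 : 512 * r ^ 3 * s' < m' ^ 2 * k) :
    32 * (r * s') * Δ * c2 < cj * cs := by
  by_contra hcon
  push Not at hcon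
  have e1 : (m' * g) * (s' * g) ≤ (2 * r * cj) * (2 * r * cs) := Nat.mul_le_mul h3 h4
  have e2 : (2 * (r * m') * Δ) * (k * c2) ≤ g * (8 * (r * s') * g) := Nat.mul_le_mul h1 h2
  have e3 : (m' * g) * (s' * g) * (2 * (r * m') * k) ≤
      (2 * r * cj) * (2 * r * cs) * (2 * (r * m') * k) := Nat.mul_le_mul_right _ e1
  have e4 : (2 * r * cj) * (2 * r * cs) * (2 * (r * m') * k) =
      (cj * cs) * (4 * r ^ 2 * (2 * (r * m') * k)) := by ring
  have e5 : (cj * cs) * (4 * r ^ 2 * (2 * (r * m') * k)) ≤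
      (32 * (r * s') * Δ * c2) * (4 * r ^ 2 * (2 * (r * m') * k)) := Nat.mul_le_mul_right _ hcon
  have e6 : (32 * (r * s') * Δ * c2) * (4 * r ^ 2 * (2 * (r * m') * k)) =
      ((2 * (r * m') * Δ) * (k * c2)) * (128 * r ^ 2 * (r * s')) := by ring
  have e7 : ((2 * (r * m') * Δ) * (k * c2)) * (128 * r ^ 2 * (r * s')) ≤
      (g * (8 * (r * s') * g)) * (128 * r ^ 2 * (r * s')) := Nat.mul_le_mul_right _ e2
  have e8 : (m' * g) * (s' * g) * (2 * (r * m') * k) ≤
      (g * (8 * (r * s') * g)) * (128 * r ^ 2 * (r * s')) := by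
    calc _ ≤ _ := e3
      _ = _ := e4
      _ ≤ _ := e5
      _ = _ := e6
      _ ≤ _ := e7
  have e9 : (m' ^ 2 * k) * (2 * r * s' * g ^ 2) ≤ (512 * r ^ 3 * s') * (2 * r * s' * g ^ 2) := by
    calc (m' ^ 2 * k) * (2 * r * s' * g ^ 2) = (m' * g) * (s' * g) * (2 * (r * m') * k) := by ring
      _ ≤ _ := e8
      _ = (512 * r ^ 3 * s') * (2 * r * s' * g ^ 2) := by ring
  have e10 : 0 < 2 * r * s' * g ^ 2 := by positivity
  have := Nat.le_of_mul_le_mul_right e9 e10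
  omega

theorem P_cov_image {G' : Type} [AddCommGroup G'] [Fintype G'] [DecidableEq G'] (π : G →+ G')
    (hπ : Function.Surjective π) (B : Finset G) (a : G) (r : ℕ)
    (hcov : ∀ x : G, ∃ j ≤ r, ∃ s ∈ sm j B, x = j • a + s) :
    ∀ x : G', ∃ j ≤ r, ∃ s ∈ sm j (B.image π), x = j • (π a) + s := by
  intro x
  obtain ⟨y, rfl⟩ := hπ x
  obtain ⟨j, hj, s, hs, hy⟩ := hcov y
  refine ⟨j, hj, π s, ?_, ?_⟩
  · rw [← sm_image]
    exact mem_image_of_mem _ hs
  · rw [hy, map_add, map_nsmul]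

theorem P_sm_mem_Hs (B : Finset G) (f : G → ℤ) (j : ℕ) (s : G) (hs : s ∈ sm j B) (lo hi : ℤ)
    (hlo : ∀ b ∈ B, lo ≤ f b) (hhi : ∀ b ∈ B, f b ≤ hi) :
    ∃ m : ℤ, (s, m) ∈ Hs B f ∧ j * lo ≤ m ∧ m ≤ j * hi := by
  induction j generalizing s with
  | zero =>
    rw [sm_zero, mem_singleton] at hs
    subst hs
    exact ⟨0, (Hs B f).zero_mem, by simp, by simp⟩
  | succ j ih =>
    rw [sm_succ, mem_add] at hs
    obtain ⟨y, hy, b, hb, rfl⟩ := hs
    obtain ⟨m, hm, h1, h2⟩ := ih y hy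
    refine ⟨m + f b, ?_, ?_, ?_⟩
    · have hb' : (b, f b) ∈ Hs B f := AddSubgroup.subset_closure ⟨b, hb, rfl⟩
      exact (Hs B f).add_mem hm hb'
    · push_cast
      have := hlo b hb
      nlinarith
    · push_cast
      have := hhi b hb
      nlinarith

theorem P_surj_fst (B : Finset G) (hgen : AddSubgroup.closure (B : Set G) = ⊤) (f : G → ℤ)
    (x : G) : ∃ m : ℤ, (x, m) ∈ Hs B f := by
  have hx : x ∈ AddSubgroup.closure (B : Set G) := by rw [hgen]; trivial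
  induction hx using AddSubgroup.closure_induction with
  | mem b hb => exact ⟨f b, AddSubgroup.subset_closure ⟨b, hb, rfl⟩⟩
  | zero => exact ⟨0, (Hs B f).zero_mem⟩
  | add x y _ _ hx hy =>
    obtain ⟨m, hm⟩ := hx
    obtain ⟨n, hn⟩ := hy
    exact ⟨m + n, (Hs B f).add_mem hm hn⟩
  | neg x _ hx =>
    obtain ⟨m, hm⟩ := hx
    exact ⟨-m, (Hs B f).neg_mem hm⟩

/-- the main case -/
theorem P_core (B : Finset G) (h0 : (0 : G) ∈ B) (hgen : AddSubgroup.closure (B : Set G) = ⊤)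
    (a : G) (r : ℕ) (hr : 1 ≤ r) (hcov : ∀ x : G, ∃ j ≤ r, ∃ s ∈ sm j B, x = j • a + s) (k : ℕ)
    (hst : stab (sm k B) = ⊥) (hk : r ^ 2 + 4680011 * r ≤ 3 * k) (hne : sm k B ≠ univ) :
    False := by
  classical
  set g := Fintype.card G with hg
  have hkg : (sm k B).card < g := by
    rw [hg, ← card_univ]
    exact card_lt_card ((ssubset_univ_iff).mpr hne)
  have hkr : r ≤ k := by nlinarith
  -- B has at least two elements
  have hB2 : 2 ≤ B.card := by
    by_contra hcon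
    have hB1 : B = {0} := by
      have : B.card ≤ 1 := by omega
      rw [card_le_one] at this
      ext x
      rw [mem_singleton]
      exact ⟨fun hx => this x hx 0 h0, fun hx => hx ▸ h0⟩
    apply hne
    have htriv : ∀ x : G, x = 0 := by
      intro x
      have hx : x ∈ AddSubgroup.closure (B : Set G) := by rw [hgen]; trivial
      rw [hB1] at hx
      have hx2 : x ∈ (⊥ : AddSubgroup G) := by
        rw [← AddSubgroup.closure_singleton_zero]
        simpa using hx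
      simpa using hx2
    ext x
    have h0k : (0 : G) ∈ sm k B := sm_mono h0 (Nat.zero_le k) (by rw [sm_zero]; simp)
    simp only [mem_univ, iff_true]
    rw [htriv x]
    exact h0k
  have hle : ∀ j ≤ k, (sm j B).card < g := fun j hj =>
    lt_of_le_of_lt (card_le_card (sm_mono h0 hj)) hkg
  have hcard2 : ∀ j, 1 ≤ j → 2 ≤ (sm j B).card := by
    intro j hj
    have := card_le_card (sm_mono h0 hj)
    rw [sm_one] at this
    omega
  have hmul : ∀ q t : ℕ, q * t ≤ k → q * (sm t B).card + 2 ≤ g + q := by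
    intro q t hqt
    have h1 := superadd_mul h0 hst hqt
    have h2 := hle (q * t) hqt
    omega
  have hF1 : g ≤ (r + 1) * (sm r B).card := P_card B h0 a r hcov
  have hF2 : r + 1 ≤ (sm r B).card := by
    have h1 := superadd_mul h0 hst (q := r) (t := 1) (by omega)
    rw [sm_one, mul_one] at h1
    nlinarith
  set bR := (sm r B).card with hbR
  -- crude bound
  have hcrude : k < r * (r + 2) := by
    have h1 := hmul (k / r) r (Nat.div_mul_le_self k r)
    rw [← hbR] at h1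
    set q := k / r with hq
    have h2 : q ≤ r + 1 := by
      obtain ⟨u, hu⟩ : ∃ u, bR = u + 1 := ⟨bR - 1, by omega⟩
      rw [hu] at h1 hF1 hF2
      exact P_n1 q u r g h1 hF1 (by omega)
    have h3 : k < r * (q + 1) := by
      have := Nat.lt_mul_div_succ k (show 0 < r by omega)
      simpa [hq] using this
    calc k < r * (q + 1) := h3
      _ ≤ r * (r + 2) := Nat.mul_le_mul_left _ (by omega)
  -- r is large
  have hrD : 260000 ≤ r := P_n2 r k hcrude hk
  have hk3 : r ^ 2 ≤ 3 * k := by omega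
  have hg1 : 1 ≤ g := by
    have := hle 0 (Nat.zero_le k)
    omega
  -- the parameters
  set m' := k / (4 * r) with hm'
  have hm'1 : 4 * r * m' ≤ k := Nat.mul_div_le k (4 * r)
  have hm'2 : k < 4 * r * (m' + 1) := Nat.lt_mul_div_succ k (show 0 < 4 * r by omega)
  have hm'3 : r < 12 * (m' + 1) := P_n3 r k m' hk3 hm'2
  have hm'4 : r ≤ 13 * m' := by omega
  have hm'5 : 1 ≤ m' := by omega
  set m := r * m' with hm
  have hm1 : 1 ≤ m := Nat.mul_pos hr hm'5
  -- B1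
  have hB1 : 2 * (sm (2 * m) B).card ≤ g := by
    have h0' : 2 * (2 * m) = 4 * r * m' := by rw [hm]; ring
    have h1 := hmul 2 (2 * m) (by rw [h0']; exact hm'1)
    omega
  have hlow : ∀ q : ℕ, q * r ≤ k → q * g ≤ 2 * r * (sm (q * r) B).card := by
    intro q hq
    have h1 := superadd_mul h0 hst (q := q) (t := r) hq
    rw [← hbR] at h1
    obtain ⟨u, hu⟩ : ∃ u, bR = u + 1 := ⟨bR - 1, by omega⟩
    rw [hu] at h1 hF1 hF2
    exact P_n5 q r g u _ h1 (P_n4 r g u (by omega) hF1 (by omega))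
  -- B2
  have hB2' : m' * g ≤ 2 * r * (sm m B).card := by
    have h0' : 4 * r * m' = 4 * (m' * r) := by ring
    have := hlow m' (by omega)
    rwa [mul_comm m' r] at this
  -- B3
  obtain ⟨j, hj1, hj2, hj3⟩ := P_tele (fun j => (sm j B).card) m hm1
  have hmonoj : (sm j B).card ≤ (sm (j + 1) B).card := card_le_card (sm_mono h0 (Nat.le_succ j))
  obtain ⟨Δ, hΔ⟩ := Nat.exists_eq_add_of_le hmonoj
  have hΔ2 : 2 * (r * m') * Δ ≤ g := by
    rw [hΔ, mul_add] at hj3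
    have h1 : m * Δ ≤ (sm (2 * m) B).card := by omega
    rw [← hm, mul_assoc]
    omega
  have hjcard : 2 * (sm j B).card ≤ g := by
    have := card_le_card (sm_mono h0 (le_of_lt hj2))
    omega
  have hjlow : m' * g ≤ 2 * r * (sm j B).card :=
    le_trans hB2' (Nat.mul_le_mul_left _ (card_le_card (sm_mono h0 hj1)))
  -- B4
  set s' := r / 260000 with hs'
  have hs'1 : 1 ≤ s' := by omega
  have hs'2 : 260000 * s' ≤ r := by omega
  have hs'3 : r < 260000 * (s' + 1) := by omega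
  set s₀ := r * s' with hs₀
  have hs₀1 : 1 ≤ s₀ := Nat.mul_pos hr hs'1
  have hs₀k : 4 * s₀ ≤ k := (P_n10 r k s' hs'2 hk3).1
  have hB4 : k * (sm (2 * s₀) B).card ≤ 8 * (r * s') * g := by
    set t' := k / (2 * s₀) with ht'
    have ht1 : t' * (2 * s₀) ≤ k := Nat.div_mul_le_self k (2 * s₀)
    have ht2 : k < 2 * s₀ * (t' + 1) := Nat.lt_mul_div_succ k (show 0 < 2 * s₀ by omega)
    have h1 := hmul t' (2 * s₀) ht1
    have h2 := hcard2 (2 * s₀) (by omega)
    rw [← hs₀]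
    obtain ⟨u, hu⟩ : ∃ u, (sm (2 * s₀) B).card = u + 2 := ⟨(sm (2 * s₀) B).card - 2, by omega⟩
    rw [hu] at h1 ⊢
    exact P_n6 k s₀ t' g u hs₀1 hs₀k ht2 h1
  -- B5
  have hB5 : s' * g ≤ 2 * r * (sm s₀ B).card := by
    have := hlow s' (P_n10 r k s' hs'2 hk3).2
    rwa [mul_comm s' r] at this
  -- B7
  have hB7 : 512 * r ^ 3 * s' < m' ^ 2 * k := P_n7 r k m' s' hk3 hm'4 hs'1 hs'2
  have hB6 : 32 * (r * s') * Δ * (sm (2 * s₀) B).card < (sm j B).card * (sm s₀ B).card :=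
    P_arith r m' k s' g Δ _ _ _ hr hs'1 hm'5 hg1 hΔ2 hB4 hjlow hB5 hB7
  -- Fourier
  obtain ⟨χ, hχ, hχb⟩ := exists_char B h0 j s₀ Δ (le_of_eq hΔ) hjcard hB6
  obtain ⟨f₀, hf₀0, hf₀n, hf₀b, hf₀m⟩ := exists_lift B h0 hgen χ hχ s₀ hs₀1 hχb
  obtain ⟨f, hf0, hfn, hfm, x₁, hx₁⟩ := normalise B s₀ f₀ hf₀0 hf₀n hf₀b hf₀m
  -- min and max
  have hBne : B.Nonempty := ⟨0, h0⟩
  obtain ⟨p, hp, hmin⟩ := exists_min_image B f hBne
  obtain ⟨q, hq, hmax⟩ := exists_max_image B f hBne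
  have hpq : f p < f q := by
    obtain ⟨b, hb, hbn⟩ := hfn
    have h1 := hmin b hb
    have h2 := hmax b hb
    have h3 := hmin 0 h0
    have h4 := hmax 0 h0
    rw [hf0] at h3 h4
    omega
  obtain ⟨L, hL⟩ : ∃ L : ℕ, f q - f p = L := ⟨(f q - f p).toNat, by omega⟩
  have hL0 : 0 < L := by omega
  -- nu
  obtain ⟨ν, hν0, hνm, hνmin⟩ : ∃ ν : ℕ, 0 < ν ∧ ((0 : G), (ν : ℤ)) ∈ Hs B f ∧
      ∀ m : ℤ, ((0 : G), m) ∈ Hs B f → (ν : ℤ) ∣ m := by
    let K : AddSubgroup ℤ := (Hs B f).comap (AddMonoidHom.inr G ℤ)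
    have hK : ∀ m : ℤ, m ∈ K ↔ ((0 : G), m) ∈ Hs B f := by
      intro m
      rw [AddSubgroup.mem_comap]
      simp
    obtain ⟨c, hc⟩ := Int.subgroup_cyclic K
    have hcK : c ∈ K := by
      rw [hc]
      exact AddSubgroup.subset_closure rfl
    have hdiv : ∀ m : ℤ, m ∈ K → c ∣ m := by
      intro m hm
      rw [hc, AddSubgroup.mem_closure_singleton] at hm
      obtain ⟨n, hn⟩ := hm
      exact ⟨n, by rw [← hn]; simp [mul_comm]⟩
    have hc0 : c ≠ 0 := by
      rintro rfl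
      obtain ⟨b, hb, hbn⟩ := hfn
      have h1 : (b, f b) ∈ Hs B f := AddSubgroup.subset_closure ⟨b, hb, rfl⟩
      have h2 : g • (b, f b) ∈ Hs B f := (Hs B f).nsmul_mem h1 g
      have h3 : g • (b, f b) = ((0 : G), (g : ℤ) * f b) := by
        rw [Prod.smul_mk]
        refine Prod.ext ?_ ?_
        · exact card_nsmul_eq_zero
        · simp
      rw [h3] at h2
      have h4 := hdiv _ ((hK _).mpr h2)
      rw [zero_dvd_iff] at h4
      rcases mul_eq_zero.mp h4 with h5 | h5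
      · omega
      · exact hbn h5
    refine ⟨c.natAbs, Int.natAbs_pos.mpr hc0, ?_, ?_⟩
    · rw [← hK]
      rcases Int.natAbs_eq c with h | h
      · rw [← h]; exact hcK
      · have : ((c.natAbs : ℕ) : ℤ) = -c := by omega
        rw [this]
        exact K.neg_mem hcK
    · intro m hm
      rw [Int.natAbs_dvd]
      exact hdiv m ((hK m).mpr hm)
  have hνL : 3 * s₀ * L < ν := by
    have h1 := hfm q hq p hp ν (by omega) hνm
    rw [hL] at h1
    simp only [Nat.abs_cast] at h1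
    exact_mod_cast h1
  -- hull bound
  obtain ⟨ma, hma⟩ := P_surj_fst B hgen f a
  have hhull : 3 * ν ≤ L * (r + 2) ^ 2 := by
    apply hull_bound ν L r hL0 hν0 (ma + f p)
    intro v
    have hv : (v • x₁, v) ∈ Hs B f := by
      have h1 := (Hs B f).zsmul_mem hx₁ v
      have h2 : v • (x₁, (1 : ℤ)) = (v • x₁, v) := by
        rw [Prod.smul_mk]
        simp
      rwa [h2] at h1
    obtain ⟨j, hj, s, hs, hx⟩ := hcov (v • x₁)
    obtain ⟨m, hm, h1, h2⟩ := P_sm_mem_Hs B f j s hs (f p) (f q) hmin hmax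
    obtain ⟨i, hi⟩ : ∃ i : ℕ, m - j * f p = i := ⟨(m - j * f p).toNat, by omega⟩
    refine ⟨j, i, hj, ?_, ?_⟩
    · have : (i : ℤ) ≤ j * L := by
        rw [← hi, ← hL]
        linarith
      exact_mod_cast this
    · apply hνmin
      have h3 : j • (a, ma) ∈ Hs B f := (Hs B f).nsmul_mem hma j
      have h4 := (Hs B f).sub_mem ((Hs B f).sub_mem hv h3) hm
      have h5 : (v • x₁, v) - j • (a, ma) - (s, m) = ((0 : G), v - (j * (ma + f p) + i)) := by
        rw [Prod.smul_mk, Prod.mk_sub_mk, Prod.mk_sub_mk, hx]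
        refine Prod.ext ?_ ?_
        · show j • a + s - j • a - s = 0
          abel
        · show v - j • ma - m = v - (j * (ma + f p) + i)
          rw [← hi]
          simp only [nsmul_eq_mul]
          ring
      rwa [h5] at h4
  -- the quotient
  have hμ1 : 3 * s₀ ≤ ν / L := by
    rw [Nat.le_div_iff_mul_le hL0]
    omega
  have hμ2 : 3 * (ν / L) ≤ (r + 2) ^ 2 := P_n11 L ν r hL0 hhull
  have ht : 2 * (r + 1) ^ 2 ≤ 780000 * (ν / L) := P_n8 r s' _ hrD hs'3 hs'1 hμ1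
  apply hne
  exact fill B h0 hgen f hf0 p q hp hq hmin hmax L hL hL0 ν hν0 hνm hνmin r 780000 k hF1 ht
    (P_n9 r k _ hr hk hμ2)

end Finite

/-- Module P (Params.lean) -/
theorem finite_main : ∃ C : ℕ, ∀ (G : Type) [AddCommGroup G] [Fintype G] [DecidableEq G]
    (B : Finset G) (_ : (0 : G) ∈ B) (_ : AddSubgroup.closure (B : Set G) = ⊤) (a : G) (r : ℕ)
    (_ : 1 ≤ r) (_ : ∀ x : G, ∃ j ≤ r, ∃ s ∈ sm j B, x = j • a + s) (k : ℕ),
    r ^ 2 + C * r ≤ 3 * k → sm k B = univ := by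
  refine ⟨4680011, ?_⟩
  intro G _ _ _ B h0 hgen a r hr hcov k hk
  by_contra hne
  obtain ⟨G', i1, i2, i3, π, hπ, hne', hst', -⟩ := exists_aperiodic B k hne
  refine P_core (B.image π) ?_ ?_ (π a) r hr (P_cov_image π hπ B a r hcov) k hst' hk hne'
  · rw [mem_image]
    exact ⟨0, h0, map_zero π⟩
  · rw [coe_image]
    have h1 := AddMonoidHom.map_closure π (B : Set G)
    rw [← h1, hgen]
    rw [← AddMonoidHom.range_eq_map]
    exact AddMonoidHom.range_eq_top.mpr hπ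

end Pool.Agent.H500R2.EO
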