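import Mathlib
import Pool.Agent.H500R2.EO.Defs
import Pool.Agent.H500R2.EO.Params

/-!
# From finite groups to sets of integers

van der Waerden's theorem and lifting (proof of `infinite_main` from `finite_main`).
-/

open Finset
open scoped Pointwise

namespace Pool.Agent.H500R2.EO

open Pool.Agent.Helper591.Kneser

theorem I_nsum_zero {A : Set ℕ} {n : ℕ} : n ∈ nsum A 0 ↔ n = 0 := by
  constructor
  · rintro ⟨v, _, rfl⟩
    simp
  · rintro rfl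
    exact ⟨fun i => i.elim0, fun i => i.elim0, by simp⟩

theorem I_nsum_succ {A : Set ℕ} {j n : ℕ} :
    n ∈ nsum A (j + 1) ↔ ∃ w ∈ nsum A j, ∃ a ∈ A, w + a = n := by
  constructor
  · rintro ⟨v, hv, rfl⟩
    exact ⟨_, ⟨fun i => v i.castSucc, fun i => hv _, rfl⟩, v (Fin.last j), hv _,
      (Fin.sum_univ_castSucc v).symm⟩
  · rintro ⟨w, ⟨v, hv, rfl⟩, a, ha, rfl⟩
    refine ⟨Fin.snoc v a, ?_, ?_⟩
    · intro i
      refine Fin.lastCases ?_ (fun i => ?_) i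
      · simpa using ha
      · simpa using hv i
    · rw [Fin.sum_univ_castSucc]
      simp

theorem I_nsum_add {A : Set ℕ} {i j u v : ℕ} (hu : u ∈ nsum A i) (hv : v ∈ nsum A j) :
    u + v ∈ nsum A (i + j) := by
  induction j generalizing v with
  | zero =>
    rw [I_nsum_zero] at hv
    rw [hv]
    exact hu
  | succ j ih =>
    obtain ⟨w, hw, a, ha, rfl⟩ := I_nsum_succ.1 hv
    rw [← add_assoc, ← add_assoc]
    exact I_nsum_succ.2 ⟨_, ih hw, a, ha, rfl⟩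

theorem I_nsum_mono {A : Set ℕ} (h0 : 0 ∈ A) {i j n : ℕ} (h : i ≤ j) (hn : n ∈ nsum A i) :
    n ∈ nsum A j := by
  induction h with
  | refl => exact hn
  | step _ ih => exact I_nsum_succ.2 ⟨n, ih, 0, h0, rfl⟩

theorem I_nsum_le {A : Set ℕ} {j n M : ℕ} (hn : n ∈ nsum A j) (hM : n < M) :
    n ∈ nsum (A ∩ Set.Iio M) j := by
  obtain ⟨v, hv, rfl⟩ := hn
  exact ⟨v, fun i => ⟨hv i, (Finset.single_le_sum (fun _ _ => Nat.zero_le _)
    (Finset.mem_univ i)).trans_lt hM⟩, rfl⟩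

theorem I_nsum_bound {A : Set ℕ} {j n M : ℕ} (hn : n ∈ nsum (A ∩ Set.Iio M) j) :
    n + j ≤ j * M := by
  obtain ⟨v, hv, rfl⟩ := hn
  calc (∑ i, v i) + j = ∑ i : Fin j, (v i + 1) := by
        rw [Finset.sum_add_distrib, Finset.sum_const, Finset.card_univ, Fintype.card_fin,
          smul_eq_mul, mul_one]
    _ ≤ ∑ _i : Fin j, M := Finset.sum_le_sum fun i _ => (hv i).2
    _ = j * M := by rw [Finset.sum_const, Finset.card_univ, Fintype.card_fin, smul_eq_mul]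

theorem I_nsum_of_inter {A D : Set ℕ} {j n : ℕ} (hn : n ∈ nsum (A ∩ D) j) : n ∈ nsum A j := by
  obtain ⟨v, hv, rfl⟩ := hn
  exact ⟨v, fun i => (hv i).1, rfl⟩

theorem I_shift {A : Set ℕ} {a0 j n : ℕ} (ha : ∀ a ∈ A, a0 ≤ a) (hn : n ∈ nsum A j) :
    ∃ w ∈ nsum {x | x + a0 ∈ A} j, n = j * a0 + w := by
  obtain ⟨v, hv, rfl⟩ := hn
  refine ⟨∑ i, (v i - a0), ⟨fun i => v i - a0, fun i => ?_, rfl⟩, ?_⟩
  · show v i - a0 + a0 ∈ A
    rw [Nat.sub_add_cancel (ha _ (hv i))]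
    exact hv i
  · have h : ∀ i, v i = a0 + (v i - a0) := fun i => by
      have := ha _ (hv i)
      omega
    calc ∑ i, v i = ∑ i, (a0 + (v i - a0)) := Finset.sum_congr rfl fun i _ => h i
      _ = j * a0 + ∑ i, (v i - a0) := by
        rw [Finset.sum_add_distrib, Finset.sum_const, Finset.card_univ, Fintype.card_fin,
          smul_eq_mul]

theorem I_unshift {A : Set ℕ} {a0 j w : ℕ} (hw : w ∈ nsum {x | x + a0 ∈ A} j) :
    j * a0 + w ∈ nsum A j := by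
  obtain ⟨v, hv, rfl⟩ := hw
  refine ⟨fun i => v i + a0, hv, ?_⟩
  rw [Finset.sum_add_distrib, Finset.sum_const, Finset.card_univ, Fintype.card_fin, smul_eq_mul,
    add_comm]

section step

variable {A : Set ℕ} {Q : ℕ} [NeZero Q]

open Classical in
/-- the image in `ZMod Q` of the elements of `A` below `2 Q` -/
noncomputable def I_B (A : Set ℕ) (Q : ℕ) : Finset (ZMod Q) :=
  ((range (2 * Q)).filter (· ∈ A)).image (fun n : ℕ => (n : ZMod Q))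

omit [NeZero Q] in
theorem I_mem_B {x : ZMod Q} : x ∈ I_B A Q ↔ ∃ a ∈ A ∩ Set.Iio (2 * Q), (a : ZMod Q) = x := by
  classical
  unfold I_B
  simp only [Finset.mem_image, Finset.mem_filter, Finset.mem_range, Set.mem_inter_iff, Set.mem_Iio]
  constructor
  · rintro ⟨a, ⟨h1, h2⟩, h3⟩
    exact ⟨a, ⟨h2, h1⟩, h3⟩
  · rintro ⟨a, ⟨h1, h2⟩, h3⟩
    exact ⟨a, ⟨h2, h1⟩, h3⟩

theorem I_mem_sm {j : ℕ} {x : ZMod Q} :
    x ∈ sm j (I_B A Q) ↔ ∃ n ∈ nsum (A ∩ Set.Iio (2 * Q)) j, (n : ZMod Q) = x := by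
  induction j generalizing x with
  | zero =>
    rw [sm_zero, Finset.mem_singleton]
    constructor
    · rintro rfl
      exact ⟨0, I_nsum_zero.2 rfl, by simp⟩
    · rintro ⟨n, hn, rfl⟩
      rw [I_nsum_zero.1 hn]
      simp
  | succ j ih =>
    rw [sm_succ, Finset.mem_add]
    constructor
    · rintro ⟨y, hy, z, hz, rfl⟩
      obtain ⟨n, hn, rfl⟩ := ih.1 hy
      obtain ⟨a, ha, rfl⟩ := I_mem_B.1 hz
      exact ⟨n + a, I_nsum_succ.2 ⟨n, hn, a, ha, rfl⟩, by push_cast; ring⟩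
    · rintro ⟨n, hn, rfl⟩
      obtain ⟨w, hw, a, ha, rfl⟩ := I_nsum_succ.1 hn
      exact ⟨_, ih.2 ⟨w, hw, rfl⟩, _, I_mem_B.2 ⟨a, ha, rfl⟩, by push_cast; ring⟩

theorem I_sm_closure {j : ℕ} {x : ZMod Q} (hx : x ∈ sm j (I_B A Q)) :
    x ∈ AddSubgroup.closure ((I_B A Q : Finset (ZMod Q)) : Set (ZMod Q)) := by
  induction j generalizing x with
  | zero =>
    rw [sm_zero, Finset.mem_singleton] at hx
    rw [hx]
    exact zero_mem _
  | succ j ih =>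
    rw [sm_succ, Finset.mem_add] at hx
    obtain ⟨y, hy, z, hz, rfl⟩ := hx
    exact add_mem (ih hy) (AddSubgroup.subset_closure hz)

theorem I_step (h0 : 0 ∈ A) {C : ℕ}
    (hC : ∀ (G : Type) [AddCommGroup G] [Fintype G] [DecidableEq G]
      (B : Finset G) (_ : (0 : G) ∈ B) (_ : AddSubgroup.closure (B : Set G) = ⊤) (a : G) (r : ℕ)
      (_ : 1 ≤ r) (_ : ∀ x : G, ∃ j ≤ r, ∃ s ∈ sm j B, x = j • a + s) (k : ℕ),
      r ^ 2 + C * r ≤ 3 * k → sm k B = univ)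
    {a0 r N0 n1 k0 m : ℕ} (hr : 1 ≤ r)
    (hcov : ∀ n ≥ N0, ∃ j ≤ r, ∃ w ∈ nsum A j, n = j * a0 + w)
    (h1 : n1 ∈ nsum A k0) (h2 : n1 + 1 ∈ nsum A k0) (hQ1 : N0 < Q) (hQ2 : n1 + 1 < Q)
    (hm : r ^ 2 + C * r ≤ 3 * m) (hm1 : 1 ≤ m) {y : ℕ} (hy : y < Q) :
    ∃ c < 2 * m, y + c * Q ∈ nsum A m := by
  have hQ : 0 < Q := by omega
  have hB0 : (0 : ZMod Q) ∈ I_B A Q := I_mem_B.2 ⟨0, ⟨h0, by
    rw [Set.mem_Iio]; omega⟩, by simp⟩
  have hgen : AddSubgroup.closure ((I_B A Q : Finset (ZMod Q)) : Set (ZMod Q)) = ⊤ := by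
    have e1 : ((n1 : ℕ) : ZMod Q) ∈
        AddSubgroup.closure ((I_B A Q : Finset (ZMod Q)) : Set (ZMod Q)) :=
      I_sm_closure (I_mem_sm.2 ⟨n1, I_nsum_le h1 (by omega), rfl⟩)
    have e2 : ((n1 + 1 : ℕ) : ZMod Q) ∈
        AddSubgroup.closure ((I_B A Q : Finset (ZMod Q)) : Set (ZMod Q)) :=
      I_sm_closure (I_mem_sm.2 ⟨n1 + 1, I_nsum_le h2 (by omega), rfl⟩)
    have e3 : (1 : ZMod Q) ∈
        AddSubgroup.closure ((I_B A Q : Finset (ZMod Q)) : Set (ZMod Q)) := by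
      have := sub_mem e2 e1
      rw [Nat.cast_add, Nat.cast_one, add_sub_cancel_left] at this
      exact this
    rw [eq_top_iff]
    intro x _
    have e4 : x = x.val • (1 : ZMod Q) := by
      rw [nsmul_eq_mul, mul_one, ZMod.natCast_zmod_val]
    rw [e4]
    exact AddSubgroup.nsmul_mem _ e3 _
  have hall := hC (ZMod Q) (I_B A Q) hB0 hgen (a0 : ZMod Q) r hr (fun x => by
    obtain ⟨j, hj, w, hw, hn⟩ := hcov (N0 + (x - (N0 : ZMod Q)).val) (Nat.le_add_right _ _)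
    have hlt : (x - (N0 : ZMod Q)).val < Q := ZMod.val_lt _
    refine ⟨j, hj, (w : ZMod Q), I_mem_sm.2 ⟨w, I_nsum_le hw (by omega), rfl⟩, ?_⟩
    have e5 := congrArg (fun t : ℕ => (t : ZMod Q)) hn
    simp only [Nat.cast_add, ZMod.natCast_zmod_val, Nat.cast_mul] at e5
    rw [nsmul_eq_mul, ← e5]
    ring) m hm
  have h3 : ((y : ℕ) : ZMod Q) ∈ sm m (I_B A Q) := by
    rw [hall]
    exact Finset.mem_univ _
  obtain ⟨u, hu, hu'⟩ := I_mem_sm.1 h3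
  rw [ZMod.natCast_eq_natCast_iff] at hu'
  have h4 : u % Q = y := by
    rw [hu']
    exact Nat.mod_eq_of_lt hy
  have h5 := I_nsum_bound hu
  refine ⟨u / Q, ?_, ?_⟩
  · rw [Nat.div_lt_iff_lt_mul hQ]
    have : m * (2 * Q) = 2 * m * Q := by ring
    omega
  · have h6 : y + u / Q * Q = u := by
      rw [← h4, mul_comm]
      exact Nat.mod_add_div _ _
    rw [h6]
    exact I_nsum_of_inter hu

end step

theorem I_main {A : Set ℕ} (h0 : 0 ∈ A) {C : ℕ}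
    (hC : ∀ (G : Type) [AddCommGroup G] [Fintype G] [DecidableEq G]
      (B : Finset G) (_ : (0 : G) ∈ B) (_ : AddSubgroup.closure (B : Set G) = ⊤) (a : G) (r : ℕ)
      (_ : 1 ≤ r) (_ : ∀ x : G, ∃ j ≤ r, ∃ s ∈ sm j B, x = j • a + s) (k : ℕ),
      r ^ 2 + C * r ≤ 3 * k → sm k B = univ)
    {a0 r N0 n1 k0 m : ℕ} (hr : 1 ≤ r)
    (hcov : ∀ n ≥ N0, ∃ j ≤ r, ∃ w ∈ nsum A j, n = j * a0 + w)
    (h1 : n1 ∈ nsum A k0) (h2 : n1 + 1 ∈ nsum A k0)
    (hm : r ^ 2 + C * r ≤ 3 * m) (hm1 : 1 ≤ m) :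
    ∃ N : ℕ, ∀ n ≥ N, n ∈ nsum A (m + 2 * r) := by
  classical
  set Q0 : ℕ := N0 + r * a0 + n1 + 2 with hQ0
  have hcov' : ∀ n : ℕ, ∃ j : Fin (r + 1), ∃ w ∈ nsum A j, Q0 * n + N0 = j * a0 + w := by
    intro n
    obtain ⟨j, hj, w, hw, h⟩ := hcov (Q0 * n + N0) (Nat.le_add_left _ _)
    exact ⟨⟨j, by omega⟩, w, hw, h⟩
  choose col hcol using hcov'
  obtain ⟨a, ha, b, c, hc⟩ := Combinatorics.exists_mono_homothetic_copy (range (2 * m + 1)) col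
  have hw : ∀ s ≤ 2 * m, ∃ w ∈ nsum A r, Q0 * (a * s + b) + N0 = c * a0 + w := by
    intro s hs
    obtain ⟨w, hw, h⟩ := hcol (a • s + b)
    rw [hc s (Finset.mem_range.2 (by omega))] at hw h
    rw [smul_eq_mul] at h
    exact ⟨w, I_nsum_mono h0 (Nat.lt_succ_iff.1 c.2) hw, h⟩
  obtain ⟨z, hz, hz'⟩ := hw 0 (Nat.zero_le _)
  have hzs : ∀ s ≤ 2 * m, z + s * (Q0 * a) ∈ nsum A r := by
    intro s hs
    obtain ⟨w, hw1, hw2⟩ := hw s hs
    have e1 : Q0 * (a * s + b) = Q0 * (a * 0 + b) + s * (Q0 * a) := by ring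
    have e2 : w = z + s * (Q0 * a) := by
      rw [e1] at hw2
      omega
    rw [← e2]
    exact hw1
  have hQ : Q0 ≤ Q0 * a := Nat.le_mul_of_pos_right _ ha
  have : NeZero (Q0 * a) := ⟨by omega⟩
  refine ⟨z + 2 * m * (Q0 * a) + N0, fun n hn => ?_⟩
  obtain ⟨j, hj, w, hw1, hw2⟩ := hcov (n - (z + 2 * m * (Q0 * a))) (by omega)
  have hja : j * a0 ≤ r * a0 := Nat.mul_le_mul_right _ hj
  obtain ⟨d, hd, hd'⟩ := I_step (Q := Q0 * a) h0 hC hr hcov h1 h2 (by omega) (by omega) hm hm1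
    (y := j * a0) (by omega)
  have e3 := I_nsum_add (I_nsum_add (hzs (2 * m - d) (by omega)) hd')
    (I_nsum_mono h0 hj hw1)
  have e4 : z + (2 * m - d) * (Q0 * a) + (j * a0 + d * (Q0 * a)) + w = n := by
    have e5 : (2 * m - d) * (Q0 * a) + d * (Q0 * a) = 2 * m * (Q0 * a) := by
      rw [← Nat.add_mul]
      congr 1
      omega
    omega
  rw [e4] at e3
  have e6 : r + m + r = m + 2 * r := by ring
  rw [e6] at e3
  exact e3

/-- Module I -/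
theorem infinite_main : ∃ C : ℕ, ∀ r ≥ 1, ∀ k ∈ exactOrders r, 3 * k ≤ r ^ 2 + C * r := by
  classical
  obtain ⟨C, hC⟩ := finite_main
  refine ⟨C + 8, fun r hr k hk => ?_⟩
  obtain ⟨A, ⟨N, hN⟩, ⟨N', hN'⟩, hleast⟩ := hk
  have hne : A.Nonempty := by
    obtain ⟨j, _, v, hv, hsum⟩ := hN (N + 1) (Nat.le_succ _)
    rcases Nat.eq_zero_or_pos j with rfl | hj
    · rw [Finset.univ_eq_empty, Finset.sum_empty] at hsum
      omega
    · exact ⟨v ⟨0, hj⟩, hv _⟩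
  set a0 : ℕ := sInf A with ha0
  have ha0A : a0 ∈ A := Nat.sInf_mem hne
  have hmin : ∀ a ∈ A, a0 ≤ a := fun a ha => Nat.sInf_le ha
  set A' : Set ℕ := {x | x + a0 ∈ A} with hA'
  have h0 : 0 ∈ A' := by
    show 0 + a0 ∈ A
    rw [zero_add]
    exact ha0A
  have hcov : ∀ n ≥ N, ∃ j ≤ r, ∃ w ∈ nsum A' j, n = j * a0 + w := by
    intro n hn
    obtain ⟨j, hj, h⟩ := hN n hn
    exact ⟨j, hj, I_shift hmin h⟩
  have hex : ∀ n ≥ N', n ∈ nsum A' k := by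
    intro n hn
    obtain ⟨w, hw, h⟩ := I_shift hmin (hN' (k * a0 + n) (by omega))
    have : n = w := by omega
    rw [this]
    exact hw
  set m : ℕ := (r ^ 2 + C * r + 2) / 3 with hm
  obtain ⟨M, hM⟩ := I_main h0 hC hr hcov (hex N' le_rfl) (hex (N' + 1) (Nat.le_succ _))
    (m := m) (by omega) (by
      have : 1 ≤ r ^ 2 := Nat.one_le_pow _ _ hr
      omega)
  have hk : k ≤ m + 2 * r := by
    refine hleast ⟨M + (m + 2 * r) * a0, fun n hn => ?_⟩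
    have := I_unshift (hM (n - (m + 2 * r) * a0) (by omega))
    have e : (m + 2 * r) * a0 + (n - (m + 2 * r) * a0) = n := by omega
    rw [e] at this
    exact this
  have h3 : (C + 8) * r = C * r + 8 * r := by ring
  rw [h3]
  omega

end Pool.Agent.H500R2.EO
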