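import Mathlib
import Pool.Agent.H500R2.EO.Defs

/-!
# The lower bound: an explicit basis of order `3q-1` and exact order `3q²+q-1`
-/

open Finset
open scoped Pointwise

namespace Pool.Agent.H500R2.EO

/-- the set of integers congruent to `-3q` or `-3q+1` modulo `3q²+q` -/
def B_A (q : ℕ) : Set ℕ :=
  {n | ((3 * q ^ 2 + q : ℕ) : ℤ) ∣ (n : ℤ) + 3 * q ∨
    ((3 * q ^ 2 + q : ℕ) : ℤ) ∣ (n : ℤ) + 3 * q - 1}

theorem B_nsum_succ {A : Set ℕ} {k a m : ℕ} (ha : a ∈ A) (hm : m ∈ nsum A k) :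
    a + m ∈ nsum A (k + 1) := by
  obtain ⟨v, hv, hs⟩ := hm
  refine ⟨Fin.cons a v, ?_, ?_⟩
  · intro i
    refine Fin.cases ?_ ?_ i
    · simpa using ha
    · intro j
      simpa using hv j
  · rw [Fin.sum_cons, hs]

theorem B_residue {q k n : ℕ} (hn : n ∈ nsum (B_A q) k) :
    ∃ i : ℕ, i ≤ k ∧ ((3 * q ^ 2 + q : ℕ) : ℤ) ∣ (n : ℤ) + 3 * q * k - i := by
  obtain ⟨v, hv, hs⟩ := hn
  induction k generalizing n with
  | zero =>
    refine ⟨0, le_rfl, ?_⟩
    have : n = 0 := by simpa using hs.symm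
    subst this
    simp
  | succ k ih =>
    rw [Fin.sum_univ_succ] at hs
    obtain ⟨i, hi, hd⟩ := ih (fun j => v j.succ) (fun j => hv _) rfl
    have h0 := hv 0
    rcases h0 with h0 | h0
    · refine ⟨i, by omega, ?_⟩
      have := dvd_add hd h0
      refine this.trans (dvd_of_eq ?_)
      rw [← hs]
      push_cast
      ring
    · refine ⟨i + 1, by omega, ?_⟩
      have := dvd_add hd h0
      refine this.trans (dvd_of_eq ?_)
      rw [← hs]
      push_cast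
      ring

theorem B_mem {q : ℕ} (hq : 2 ≤ q) (k : ℕ) : ∀ (i n : ℕ), i ≤ k + 1 →
    (k + 1) * (3 * q ^ 2 + q) ≤ n →
    ((3 * q ^ 2 + q : ℕ) : ℤ) ∣ (n : ℤ) + 3 * q * (k + 1 : ℕ) - i →
    n ∈ nsum (B_A q) (k + 1) := by
  have hg : 3 * q ≤ 3 * q ^ 2 + q := by nlinarith
  have hg1 : 3 * q + 1 ≤ 3 * q ^ 2 + q := by nlinarith
  induction k with
  | zero =>
    intro i n hi hn hd
    refine ⟨fun _ => n, ?_, by simp⟩
    intro _
    have : i = 0 ∨ i = 1 := by omega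
    rcases this with rfl | rfl
    · left
      simpa using hd
    · right
      simpa using hd
  | succ k ih =>
    intro i n hi hn hd
    have hn' : (k + 1) * (3 * q ^ 2 + q) + (3 * q ^ 2 + q) ≤ n := by
      calc _ = (k + 1 + 1) * (3 * q ^ 2 + q) := by ring
        _ ≤ n := hn
    by_cases hik : i ≤ k + 1
    · have h1 : (3 * q ^ 2 + q - 3 * q) + (n - (3 * q ^ 2 + q - 3 * q)) = n := by omega
      rw [← h1]
      apply B_nsum_succ
      · left
        push_cast [Nat.cast_sub hg]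
        simp
      · apply ih i _ hik
        · omega
        · have h2 : ((n - (3 * q ^ 2 + q - 3 * q) : ℕ) : ℤ) =
              n - (3 * q ^ 2 + q : ℕ) + 3 * q := by
            omega
          rw [h2]
          have := dvd_sub hd (dvd_refl ((3 * q ^ 2 + q : ℕ) : ℤ))
          refine this.trans (dvd_of_eq ?_)
          push_cast
          ring
    · have hik' : i = k + 2 := by omega
      subst hik'
      have h1 : (3 * q ^ 2 + q - 3 * q + 1) + (n - (3 * q ^ 2 + q - 3 * q + 1)) = n := by omega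
      rw [← h1]
      apply B_nsum_succ
      · right
        have h3 : ((3 * q ^ 2 + q - 3 * q + 1 : ℕ) : ℤ) =
            (3 * q ^ 2 + q : ℕ) - 3 * q + 1 := by
          omega
        rw [h3]
        exact ⟨1, by ring⟩
      · apply ih (k + 1) _ le_rfl
        · omega
        · have h2 : ((n - (3 * q ^ 2 + q - 3 * q + 1) : ℕ) : ℤ) =
              n - (3 * q ^ 2 + q : ℕ) + 3 * q - 1 := by
            omega
          rw [h2]
          have := dvd_sub hd (dvd_refl ((3 * q ^ 2 + q : ℕ) : ℤ))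
          refine this.trans (dvd_of_eq ?_)
          push_cast
          ring

/-- every residue `t` is reached with at most `3q-1` summands -/
theorem B_cover {q : ℕ} (hq : 2 ≤ q) (t : ℕ) (ht : t < 3 * q ^ 2 + q) :
    ∃ j i c : ℕ, j + 1 ≤ 3 * q - 1 ∧ i ≤ j + 1 ∧
      t + 3 * q * (j + 1) = c * (3 * q ^ 2 + q) + i := by
  by_cases h1 : t < q
  · exact ⟨2 * q, t + q, 2, by omega, by omega, by ring⟩
  by_cases h2 : t ≤ 2 * q
  · refine ⟨q - 1, t - q, 1, by omega, by omega, ?_⟩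
    obtain ⟨s, rfl⟩ : ∃ s, t = q + s := ⟨t - q, by omega⟩
    have e1 : q - 1 + 1 = q := by omega
    have e2 : q + s - q = s := by omega
    rw [e1, e2]
    ring
  by_cases h3 : t < 4 * q
  · refine ⟨2 * q - 1, t - 2 * q, 2, by omega, by omega, ?_⟩
    obtain ⟨s, rfl⟩ : ∃ s, t = 2 * q + s := ⟨t - 2 * q, by omega⟩
    have e1 : 2 * q - 1 + 1 = 2 * q := by omega
    have e2 : 2 * q + s - 2 * q = s := by omega
    rw [e1, e2]
    ring
  obtain ⟨s, rfl⟩ : ∃ s, t = 4 * q + s := ⟨t - 4 * q, by omega⟩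
  obtain ⟨e, f, hf, rfl⟩ : ∃ e f : ℕ, f < 3 * q ∧ s = 3 * q * e + f :=
    ⟨s / (3 * q), s % (3 * q), Nat.mod_lt _ (by omega), (Nat.div_add_mod _ _).symm⟩
  have he : e + 2 ≤ q := by
    by_contra hcon
    have : q ≤ e + 1 := by omega
    nlinarith
  obtain ⟨j, rfl⟩ : ∃ j, q = j + 2 + e := ⟨q - e - 2, by omega⟩
  -- `j' = j + 1`
  by_cases h4 : f ≤ j + 1
  · exact ⟨j, f, 1, by omega, h4, by ring⟩
  by_cases h5 : f < j + 2 + e
  · refine ⟨2 * (j + 2 + e) + (j + 1), f + (j + 2 + e), 3, by omega, by omega, by ring⟩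
  by_cases h6 : f ≤ 2 * (j + 2 + e)
  · obtain ⟨u, rfl⟩ : ∃ u, f = (j + 2 + e) + u := ⟨f - (j + 2 + e), by omega⟩
    exact ⟨(j + 2 + e) + j, u, 2, by omega, by omega, by ring⟩
  · obtain ⟨u, rfl⟩ : ∃ u, f = 2 * (j + 2 + e) + u := ⟨f - 2 * (j + 2 + e), by omega⟩
    exact ⟨2 * (j + 2 + e) + j, u, 3, by omega, by omega, by ring⟩

theorem lower (q r : ℕ) (hq : 2 ≤ q) (hr : 3 * q - 1 ≤ r) :
    3 * q ^ 2 + q - 1 ∈ exactOrders r := by
  have hgpos : 0 < 3 * q ^ 2 + q := by nlinarith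
  refine ⟨B_A q, ?_, ?_, ?_⟩
  · -- basis of order `r`
    refine ⟨(3 * q) * (3 * q ^ 2 + q), fun n hn => ?_⟩
    obtain ⟨j, i, c, hj, hi, hc⟩ := B_cover hq (n % (3 * q ^ 2 + q)) (Nat.mod_lt _ hgpos)
    refine ⟨j + 1, by omega, B_mem hq j i n hi ?_ ?_⟩
    · refine le_trans ?_ hn
      exact Nat.mul_le_mul_right _ (by omega)
    · have h1 := Nat.div_add_mod n (3 * q ^ 2 + q)
      have h2 : (n : ℤ) = (3 * q ^ 2 + q : ℕ) * (n / (3 * q ^ 2 + q) : ℕ) +
          (n % (3 * q ^ 2 + q) : ℕ) := by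
        exact_mod_cast h1.symm
      have h3 : ((n % (3 * q ^ 2 + q) : ℕ) : ℤ) + 3 * q * (j + 1) =
          c * (3 * q ^ 2 + q : ℕ) + i := by
        exact_mod_cast hc
      refine ⟨(n / (3 * q ^ 2 + q) : ℕ) + c, ?_⟩
      rw [h2]
      push_cast at h3 ⊢
      linear_combination h3
  · -- the exact order is at most `g-1`
    refine ⟨(3 * q ^ 2 + q) * (3 * q ^ 2 + q), fun n hn => ?_⟩
    obtain ⟨k, hk⟩ : ∃ k, 3 * q ^ 2 + q - 1 = k + 1 := ⟨3 * q ^ 2 + q - 2, by nlinarith [Nat.sub_add_cancel (show 2 ≤ 3 * q ^ 2 + q by nlinarith), Nat.sub_add_cancel (show 1 ≤ 3 * q ^ 2 + q by nlinarith)]⟩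
    rw [hk]
    have hi := Nat.mod_lt (n + 3 * q * (k + 1)) hgpos
    apply B_mem hq k ((n + 3 * q * (k + 1)) % (3 * q ^ 2 + q)) n (by omega)
    · refine le_trans ?_ hn
      exact Nat.mul_le_mul_right _ (by omega)
    · have h1 := Nat.div_add_mod (n + 3 * q * (k + 1)) (3 * q ^ 2 + q)
      refine ⟨((n + 3 * q * (k + 1)) / (3 * q ^ 2 + q) : ℕ), ?_⟩
      have h2 : ((3 * q ^ 2 + q : ℕ) : ℤ) * ((n + 3 * q * (k + 1)) / (3 * q ^ 2 + q) : ℕ) +
          ((n + 3 * q * (k + 1)) % (3 * q ^ 2 + q) : ℕ) = n + 3 * q * (k + 1 : ℕ) := by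
        exact_mod_cast h1
      linear_combination -h2
  · -- the exact order is at least `g-1`
    rintro k ⟨N, hN⟩
    have : NeZero (3 * q ^ 2 + q) := ⟨hgpos.ne'⟩
    have hcard : Fintype.card (ZMod (3 * q ^ 2 + q)) = 3 * q ^ 2 + q := ZMod.card _
    have hsurj : ∀ t : ZMod (3 * q ^ 2 + q), ∃ i ∈ Finset.range (k + 1),
        (fun i : ℕ => ((i : ZMod (3 * q ^ 2 + q)) - 3 * q * k)) i = t := by
      intro t
      obtain ⟨i, hi, hd⟩ := B_residue (hN (t.val + N * (3 * q ^ 2 + q)) (by nlinarith))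
      refine ⟨i, by simpa using Nat.lt_succ_of_le hi, ?_⟩
      have h1 : (((t.val + N * (3 * q ^ 2 + q) : ℕ) : ℤ) + 3 * q * k - i :
          ℤ) = (0 : ZMod (3 * q ^ 2 + q)) := by
        rw [ZMod.intCast_zmod_eq_zero_iff_dvd]
        exact hd
      have h3 : ((3 * q ^ 2 + q : ℕ) : ZMod (3 * q ^ 2 + q)) = 0 := ZMod.natCast_self _
      have h4 : ((t.val : ℕ) : ZMod (3 * q ^ 2 + q)) = t := ZMod.natCast_zmod_val t
      push_cast at h1 h3
      rw [h3, h4] at h1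
      show (i : ZMod (3 * q ^ 2 + q)) - 3 * q * k = t
      linear_combination -h1
    have h5 : (Finset.univ : Finset (ZMod (3 * q ^ 2 + q))) ⊆
        (Finset.range (k + 1)).image (fun i : ℕ => ((i : ZMod (3 * q ^ 2 + q)) - 3 * q * k)) := by
      intro t _
      obtain ⟨i, hi, hit⟩ := hsurj t
      exact Finset.mem_image.2 ⟨i, hi, hit⟩
    have h6 := (Finset.card_le_card h5).trans Finset.card_image_le
    rw [Finset.card_univ, hcard, Finset.card_range] at h6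
    omega

end Pool.Agent.H500R2.EO
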