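import Mathlib
import Pool.Agent.H500R2.EO.Defs

/-! Exact statements of the modules (blueprint, with `sorry`; never import this in a final file). -/

open Finset
open scoped Pointwise

namespace Pool.Agent.H500R2.EO.Stubs

open Pool.Agent.Helper591.Kneser Pool.Agent.H500R2.EO

/-- Module L (LShape.lean) -/
theorem lshape {Γ : Type*} [AddCommGroup Γ] [DecidableEq Γ] (e₁ e₂ : Γ) (R : ℕ)
    (hR : ∀ x y : ℕ, ∃ x' y' : ℕ, x' + y' ≤ R ∧ x' • e₁ + y' • e₂ = x • e₁ + y • e₂)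
    (V : Finset Γ) (hV : ∀ v ∈ V, ∃ x y : ℕ, v = x • e₁ + y • e₂) :
    3 * V.card ≤ (R + 2) ^ 2 := sorry

/-- Module L (LShape.lean), second theorem -/
theorem hull_bound (ν L r : ℕ) (hL : 0 < L) (hν : 0 < ν) (α : ℤ)
    (hcov : ∀ v : ℤ, ∃ j i : ℕ, j ≤ r ∧ i ≤ j * L ∧ (ν : ℤ) ∣ v - (j * α + i)) :
    3 * ν ≤ L * (r + 2) ^ 2 := sorry

section Finite

variable {G : Type} [AddCommGroup G] [Fintype G] [DecidableEq G]

/-- Module G (Growth.lean) -/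
theorem sm_mono {B : Finset G} (h0 : (0 : G) ∈ B) {i j : ℕ} (h : i ≤ j) : sm i B ⊆ sm j B := sorry

theorem sm_image {G' : Type} [AddCommGroup G'] [Fintype G'] [DecidableEq G'] (π : G →+ G')
    (B : Finset G) (j : ℕ) : (sm j B).image π = sm j (B.image π) := sorry

theorem superadd {B : Finset G} (h0 : (0 : G) ∈ B) {κ i j : ℕ} (hst : stab (sm κ B) = ⊥)
    (h : i + j ≤ κ) : (sm i B).card + (sm j B).card ≤ (sm (i + j) B).card + 1 := sorry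

theorem superadd_mul {B : Finset G} (h0 : (0 : G) ∈ B) {κ q t : ℕ} (hst : stab (sm κ B) = ⊥)
    (h : q * t ≤ κ) : q * (sm t B).card + 1 ≤ (sm (q * t) B).card + q := sorry

theorem exists_aperiodic (B : Finset G) (κ : ℕ) (hκ : sm κ B ≠ univ) :
    ∃ (G' : Type) (_ : AddCommGroup G') (_ : Fintype G') (_ : DecidableEq G') (π : G →+ G'),
      Function.Surjective π ∧ sm κ (B.image π) ≠ univ ∧ stab (sm κ (B.image π)) = ⊥ ∧
      ∀ X : Finset G, X.card * Fintype.card G' ≤ (X.image π).card * Fintype.card G := sorry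

theorem sm_eq_univ_of_dense {X : Finset G} (h0 : (0 : G) ∈ X)
    (hgen : AddSubgroup.closure (X : Set G) = ⊤) (t : ℕ)
    (ht : 2 * Fintype.card G ≤ t * X.card) : sm t X = univ := sorry

/-- Module F (Fourier.lean) -/
theorem exists_char (B : Finset G) (h0 : (0 : G) ∈ B) (j s₀ Δ : ℕ)
    (hΔ : (sm (j + 1) B).card ≤ (sm j B).card + Δ)
    (hZ : 2 * (sm j B).card ≤ Fintype.card G)
    (h : 32 * s₀ * Δ * (sm (2 * s₀) B).card < (sm j B).card * (sm s₀ B).card) :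
    ∃ χ : AddChar G ℂ, χ ≠ 1 ∧ ∀ b ∈ B, ∀ s ≤ s₀, ‖χ (s • b) - 1‖ < 1 := sorry

/-- Module A (Arc.lean) -/
theorem exists_lift (B : Finset G) (h0 : (0 : G) ∈ B)
    (hgen : AddSubgroup.closure (B : Set G) = ⊤) (χ : AddChar G ℂ) (hχ : χ ≠ 1) (S : ℕ)
    (hS : 1 ≤ S) (h : ∀ b ∈ B, ∀ s ≤ S, ‖χ (s • b) - 1‖ < 1) :
    ∃ f : G → ℤ, f 0 = 0 ∧ (∃ b ∈ B, f b ≠ 0) ∧
      (∀ b ∈ B, 6 * S * |f b| < (Fintype.card G : ℤ)) ∧
      ∀ m : ℤ, ((0 : G), m) ∈ Hs B f → (Fintype.card G : ℤ) ∣ m := sorry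

theorem normalise (B : Finset G) (S : ℕ) (f : G → ℤ) (hf0 : f 0 = 0) (hfn : ∃ b ∈ B, f b ≠ 0)
    (hf : ∀ b ∈ B, 6 * S * |f b| < (Fintype.card G : ℤ))
    (hm : ∀ m : ℤ, ((0 : G), m) ∈ Hs B f → (Fintype.card G : ℤ) ∣ m) :
    ∃ f' : G → ℤ, f' 0 = 0 ∧ (∃ b ∈ B, f' b ≠ 0) ∧
      (∀ b ∈ B, ∀ b' ∈ B, ∀ m : ℤ, m ≠ 0 → ((0 : G), m) ∈ Hs B f' →
        3 * S * |f' b - f' b'| < |m|) ∧
      ∃ x : G, (x, (1 : ℤ)) ∈ Hs B f' := sorry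

/-- Module H (Fill.lean) -/
theorem fill (B : Finset G) (h0 : (0 : G) ∈ B) (hgen : AddSubgroup.closure (B : Set G) = ⊤)
    (f : G → ℤ) (hf0 : f 0 = 0) (p q : G) (hp : p ∈ B) (hq : q ∈ B)
    (hmin : ∀ b ∈ B, f p ≤ f b) (hmax : ∀ b ∈ B, f b ≤ f q) (L : ℕ) (hL : f q - f p = L)
    (hL0 : 0 < L) (ν : ℕ) (hν0 : 0 < ν) (hν : ((0 : G), (ν : ℤ)) ∈ Hs B f)
    (hνmin : ∀ m : ℤ, ((0 : G), m) ∈ Hs B f → (ν : ℤ) ∣ m) (r t k : ℕ)
    (hrg : Fintype.card G ≤ (r + 1) * (sm r B).card)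
    (ht : 2 * (r + 1) ^ 2 ≤ t * (ν / L)) (hk : 2 * (t * r) + ν / L + 1 ≤ k) :
    sm k B = univ := sorry

/-- Module P (Params.lean) -/
theorem finite_main : ∃ C : ℕ, ∀ (G : Type) [AddCommGroup G] [Fintype G] [DecidableEq G]
    (B : Finset G) (_ : (0 : G) ∈ B) (_ : AddSubgroup.closure (B : Set G) = ⊤) (a : G) (r : ℕ)
    (_ : 1 ≤ r) (_ : ∀ x : G, ∃ j ≤ r, ∃ s ∈ sm j B, x = j • a + s) (k : ℕ),
    r ^ 2 + C * r ≤ 3 * k → sm k B = univ := sorry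

end Finite

/-- Module I (Infinite.lean) -/
theorem infinite_main : ∃ C : ℕ, ∀ r ≥ 1, ∀ k ∈ exactOrders r, 3 * k ≤ r ^ 2 + C * r := sorry

/-- Module B (Lower.lean) -/
theorem lower (q r : ℕ) (hq : 2 ≤ q) (hr : 3 * q - 1 ≤ r) : 3 * q ^ 2 + q - 1 ∈ exactOrders r := sorry

end Pool.Agent.H500R2.EO.Stubs
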